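import Mathlib
import Pool.Agent.H77.Q1.K3d

set_option autoImplicit false
open Finset

/-! Filling a connected set `K` of fresh vertices: `fill M K` consists of the vertices of the box of
radius `M` which are not joined to the corner `(M, M)` by king steps off `K`. In an environment with
connected walls the filled set satisfies all conditions of `KT` (in particular the ring condition). -/

namespace Pool.Agent.H23.Q1

open Pool.Agent.H75.Perc Pool.Agent.H75.TwoArm Pool.Agent.H75.Four Pool.Agent.H77.Q1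
open Pool.Agent.Q1.M3 (star kap mem_star_iff mem_kap_iff)

/-- vertex of the box of radius `M` -/
def Ib (M : ℤ) (v : ℤ × ℤ) : Prop := (-M ≤ v.1 ∧ v.1 ≤ M) ∧ (-M ≤ v.2 ∧ v.2 ≤ M)

/-- king step -/
def Kg (a b : ℤ × ℤ) : Prop := (a.1 - 1 ≤ b.1 ∧ b.1 ≤ a.1 + 1) ∧ (a.2 - 1 ≤ b.2 ∧ b.2 ≤ a.2 + 1)

/-- connection by king steps in the box off `K` (the start is not required to be off `K`) -/
def KC (M : ℤ) (K : Finset (ℤ × ℤ)) (a b : ℤ × ℤ) : Prop :=
  Relation.ReflTransGen (fun u v => Kg u v ∧ Ib M v ∧ v ∉ K) a b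

/-- the vertex `v` of the box is off `K` and joined to the corner `(M, M)` off `K` -/
def Out (M : ℤ) (K : Finset (ℤ × ℤ)) (v : ℤ × ℤ) : Prop := Ib M v ∧ v ∉ K ∧ KC M K v (M, M)

open Classical in
/-- the filled set -/
noncomputable def fill (M : ℤ) (K : Finset (ℤ × ℤ)) : Finset (ℤ × ℤ) :=
  ((Icc (-M) M) ×ˢ (Icc (-M) M)).filter (fun v => ¬ Out M K v)

section
variable {M : ℤ} {K : Finset (ℤ × ℤ)}

lemma mem_fill {v : ℤ × ℤ} : v ∈ fill M K ↔ Ib M v ∧ ¬ Out M K v := by
  unfold fill Ib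
  simp only [mem_filter, mem_product, mem_Icc]

lemma Kg.symm {a b : ℤ × ℤ} (h : Kg a b) : Kg b a := by
  unfold Kg at h ⊢; omega

lemma KC.refl (a : ℤ × ℤ) : KC M K a a := Relation.ReflTransGen.refl

lemma KC.trans {a b c : ℤ × ℤ} (h1 : KC M K a b) (h2 : KC M K b c) : KC M K a c :=
  Relation.ReflTransGen.trans h1 h2

lemma KC.head {a b c : ℤ × ℤ} (h : Kg a b) (hb : Ib M b) (hK : b ∉ K) (h2 : KC M K b c) :
    KC M K a c := Relation.ReflTransGen.head ⟨h, hb, hK⟩ h2

lemma KC.one {a b : ℤ × ℤ} (h : Kg a b) (hb : Ib M b) (hK : b ∉ K) : KC M K a b :=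
  Relation.ReflTransGen.single ⟨h, hb, hK⟩

lemma Out.of_kc {a b : ℤ × ℤ} (ha : Ib M a) (hK : a ∉ K) (h : KC M K a b) (hb : Out M K b) :
    Out M K a := ⟨ha, hK, h.trans hb.2.2⟩

lemma Out.step {a b : ℤ × ℤ} (ha : Ib M a) (hK : a ∉ K) (h : Kg a b) (hb : Out M K b) :
    Out M K a := hb.of_kc ha hK (KC.one h hb.1 hb.2.1)

/-- everything on a king path from an outer vertex is outer -/
lemma Out.mem_path {a b : ℤ × ℤ} (h : KC M K a b) (ha : Out M K a) : Out M K b := by
  induction h with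
  | refl => exact ha
  | @tail b c _ hbc ih => exact ih.step hbc.2.1 hbc.2.2 hbc.1.symm

lemma mem_fill_of_kg {v w : ℤ × ℤ} (hv : v ∈ fill M K) (hK : v ∉ K) (h : Kg v w) (hw : Ib M w) :
    w ∈ fill M K := by
  rw [mem_fill] at hv ⊢
  exact ⟨hw, fun h1 => hv.2 (h1.step hv.1 hK h)⟩

lemma subset_fill (hK : ∀ v ∈ K, Ib M v) : K ⊆ fill M K := fun v hv =>
  mem_fill.2 ⟨hK v hv, fun h => h.2.1 hv⟩

/-- vertical king path -/
lemma kc_ver {x y y' : ℤ} (hy : y ≤ y') (h : ∀ t, y < t → t ≤ y' → Ib M (x, t) ∧ (x, t) ∉ K) :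
    KC M K (x, y) (x, y') := by
  induction y', hy using Int.leInduction with
  | base => exact KC.refl _
  | succ n hn ih =>
    refine (ih fun t h1 h2 => h t h1 (by omega)).trans ?_
    have h1 := h (n + 1) (by omega) le_rfl
    exact KC.one (by unfold Kg; simp only; omega) h1.1 h1.2

/-- horizontal king path -/
lemma kc_hor {x x' y : ℤ} (hy : x ≤ x') (h : ∀ t, x < t → t ≤ x' → Ib M (t, y) ∧ (t, y) ∉ K) :
    KC M K (x, y) (x', y) := by
  induction x', hy using Int.leInduction with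
  | base => exact KC.refl _
  | succ n hn ih =>
    refine (ih fun t h1 h2 => h t h1 (by omega)).trans ?_
    have h1 := h (n + 1) (by omega) le_rfl
    exact KC.one (by unfold Kg; simp only; omega) h1.1 h1.2

/-- vertices near the frame of the box are outer -/
lemma out_far (hK : ∀ v ∈ K, Ib (M - 2) v) {v : ℤ × ℤ} (hv : Ib M v) (h : ¬ Ib (M - 2) v) :
    Out M K v := by
  have hn : ∀ w : ℤ × ℤ, ¬ Ib (M - 2) w → w ∉ K := fun w h1 h2 => h1 (hK w h2)
  refine ⟨hv, hn v h, ?_⟩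
  obtain ⟨x, y⟩ := v
  unfold Ib at hv h
  simp only at hv h
  by_cases h1 : -(M - 2) ≤ y ∧ y ≤ M - 2
  · -- up the column, then to the right
    refine (kc_ver (y' := M) (by omega) ?_).trans (kc_hor (by omega) ?_)
    · intro t h2 h3
      refine ⟨by unfold Ib; simp only; omega, hn _ ?_⟩
      unfold Ib; simp only; omega
    · intro t h2 h3
      refine ⟨by unfold Ib; simp only; omega, hn _ ?_⟩
      unfold Ib; simp only; omega
  · refine (kc_hor (x' := M) (by omega) ?_).trans (kc_ver (by omega) ?_)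
    · intro t h2 h3
      refine ⟨by unfold Ib; simp only; omega, hn _ ?_⟩
      unfold Ib; simp only; omega
    · intro t h2 h3
      refine ⟨by unfold Ib; simp only; omega, hn _ ?_⟩
      unfold Ib; simp only; omega

lemma fill_ib (hK : ∀ v ∈ K, Ib (M - 2) v) {v : ℤ × ℤ} (hv : v ∈ fill M K) : Ib (M - 2) v := by
  rw [mem_fill] at hv
  by_contra h
  exact hv.2 (out_far hK hv.1 h)

/-- a vertex of the filled set is joined to `K` in it -/
lemma fill_to (hK : ∀ v ∈ K, Ib (M - 2) v) {v : ℤ × ℤ} (hv : v ∈ fill M K) :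
    ∃ u ∈ K, Co (kap (fill M K)) v u := by
  obtain ⟨n, hn⟩ : ∃ n : ℕ, (n : ℤ) = M - v.1 := by
    have := fill_ib hK hv
    unfold Ib at this
    exact ⟨(M - v.1).toNat, by omega⟩
  induction n generalizing v with
  | zero =>
    have := fill_ib hK hv
    unfold Ib at this
    push_cast at hn
    omega
  | succ n ih =>
    by_cases hvK : v ∈ K
    · exact ⟨v, hvK, Co.refl _ _⟩
    · have h1 := fill_ib hK hv
      have h2 : (v.1 + 1, v.2) ∈ fill M K := by
        refine mem_fill_of_kg hv hvK ?_ ?_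
        · unfold Kg; simp only; omega
        · unfold Ib at h1 ⊢; simp only; omega
      obtain ⟨u, hu, hu'⟩ := ih h2 (by simp only; push_cast at hn; omega)
      refine ⟨u, hu, Relation.ReflTransGen.head ⟨Or.inl ?_, ?_⟩ hu'⟩
      · exact Prod.ext (by simp) (by simp)
      · have ho : ((v + (v.1 + 1, v.2)).1 + (v + (v.1 + 1, v.2)).2) % 2 = 1 := by
          simp only [Prod.fst_add, Prod.snd_add]; omega
        rw [mem_kap_iff ho]
        have e1 : eu (v + (v.1 + 1, v.2)) = v := by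
          unfold eu
          simp only [Prod.fst_add, Prod.snd_add]
          exact Prod.ext (by simp only; omega) (by simp only; omega)
        have e2 : ev (v + (v.1 + 1, v.2)) = (v.1 + 1, v.2) := by
          unfold ev
          simp only [Prod.fst_add, Prod.snd_add]
          exact Prod.ext (by simp only; omega) (by simp only; omega)
        rw [e1, e2]
        exact ⟨hv, h2⟩

lemma kap_mono {L : Finset (ℤ × ℤ)} (h : K ⊆ L) : kap K ⊆ kap L := by
  intro e he
  unfold Pool.Agent.Q1.M3.kap at he ⊢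
  rw [mem_filter] at he ⊢
  exact ⟨Pool.Agent.Q1.M3.star_mono h he.1, h he.2.1, h he.2.2⟩

lemma fill_conn (hK : ∀ v ∈ K, Ib (M - 2) v) (hc : ∀ u ∈ K, ∀ v ∈ K, Co (kap K) u v) :
    ∀ u ∈ fill M K, ∀ v ∈ fill M K, Co (kap (fill M K)) u v := by
  intro u hu v hv
  obtain ⟨u', hu', h1⟩ := fill_to hK hu
  obtain ⟨v', hv', h2⟩ := fill_to hK hv
  have h3 : K ⊆ fill M K := subset_fill fun w hw => by
    have := hK w hw
    unfold Ib at this ⊢
    omega
  exact h1.trans (((hc _ hu' _ hv').mono (kap_mono h3)).trans h2.symm)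

/-! ### faces -/

lemma ad_du {B η : Finset (ℤ × ℤ)} {g g' : ℤ × ℤ} :
    Ad (du B η) g g' ↔ IsUnit4 (g' - g) ∧ lbf g g' ∈ B ∧ lbf g g' ∉ η := by
  unfold Ad lbf
  rw [mem_du']

/-- `g` is one of the four faces around the vertex `z` -/
def Af (z g : ℤ × ℤ) : Prop :=
  g = z ∨ g = (z.1 + 1, z.2) ∨ g = (z.1 + 1, z.2 + 1) ∨ g = (z.1, z.2 + 1)

/-- the labels at the vertex `z` are in `B` and not in `η` -/
def Fr (B η : Finset (ℤ × ℤ)) (z : ℤ × ℤ) : Prop :=
  ∀ l : ℤ × ℤ, (l.1 + l.2) % 2 = 1 → (z = eu l ∨ z = ev l) → l ∈ B ∧ l ∉ η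

/-- the faces around a free vertex are joined -/
lemma ar_co {B η : Finset (ℤ × ℤ)} {z g g' : ℤ × ℤ} (hz : Fr B η z) (hg : Af z g) (hg' : Af z g') :
    Co (du B η) g g' := by
  obtain ⟨x, y⟩ := z
  have key : ∀ f f' : ℤ × ℤ, Af (x, y) f → Af (x, y) f' → IsUnit4 (f' - f) →
      Co (du B η) f f' := by
    intro f f' h1 h2 h3
    refine Relation.ReflTransGen.single (ad_du.2 ⟨h3, ?_⟩)
    have h4 := unit_cases h3
    unfold Af at h1 h2
    refine hz _ ?_ ?_
    · unfold lbf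
      simp only [Prod.fst_sub, Prod.snd_sub, Prod.fst_add, Prod.snd_add]
      omega
    · unfold lbf eu ev
      simp only [Prod.ext_iff, Prod.fst_sub, Prod.snd_sub, Prod.fst_add, Prod.snd_add] at h1 h2 ⊢
      omega
  have a0 : Af (x, y) (x, y) := Or.inl rfl
  have a1 : Af (x, y) (x + 1, y) := Or.inr (Or.inl rfl)
  have a2 : Af (x, y) (x + 1, y + 1) := Or.inr (Or.inr (Or.inl rfl))
  have a3 : Af (x, y) (x, y + 1) := Or.inr (Or.inr (Or.inr rfl))
  have b1 := key _ _ a0 a1 (by unfold IsUnit4; simp)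
  have b2 := key _ _ a1 a2 (by unfold IsUnit4; simp)
  have b3 := key _ _ a0 a3 (by unfold IsUnit4; simp)
  have all : ∀ f, Af (x, y) f → Co (du B η) (x, y) f := by
    rintro f (rfl | rfl | rfl | rfl)
    · exact Co.refl _ _
    · exact b1
    · exact b1.trans b2
    · exact b3
  exact (all g hg).symm.trans (all g' hg')

/-- neighbouring vertices have a common face -/
lemma ar_common {a b : ℤ × ℤ} (h : Kg a b) : ∃ g, Af a g ∧ Af b g := by
  obtain ⟨x, y⟩ := a
  obtain ⟨x', y'⟩ := b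
  unfold Kg at h
  simp only at h
  unfold Af
  simp only [Prod.ext_iff]
  refine ⟨(max x x', max y y'), ?_, ?_⟩ <;> simp only <;> omega

lemma kg_of_ar {a b g : ℤ × ℤ} (ha : Af a g) (hb : Af b g) : Kg a b := by
  unfold Af at ha hb
  unfold Kg
  simp only [Prod.ext_iff] at ha hb
  omega

/-- the ends of the label between two faces -/
lemma ar_ends {g g' z : ℤ × ℤ} (h : IsUnit4 (g' - g)) (hz : z = eu (lbf g g') ∨ z = ev (lbf g g')) :
    Af z g ∧ Af z g' := by
  have h1 := unit_cases h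
  unfold lbf eu ev at hz
  unfold Af
  simp only [Prod.ext_iff, Prod.fst_sub, Prod.snd_sub, Prod.fst_add, Prod.snd_add] at hz ⊢
  omega

lemma odd_lbf {g g' : ℤ × ℤ} (h : IsUnit4 (g' - g)) : ((lbf g g').1 + (lbf g g').2) % 2 = 1 := by
  have h1 := unit_cases h
  unfold lbf
  simp only [Prod.fst_sub, Prod.snd_sub, Prod.fst_add, Prod.snd_add]
  omega

lemma ib_ends {l : ℤ × ℤ} (h : l ∈ H75.TwoArm.BB M) : Ib M (eu l) ∧ Ib M (ev l) := by
  unfold H75.TwoArm.BB at h
  rw [mem_Bx] at h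
  unfold Ib eu ev
  simp only
  omega

/-- a dual path off `star K` gives a king path off `K` -/
lemma kc_of_dual {η : Finset (ℤ × ℤ)} (hη : star K ⊆ η) {g g' a : ℤ × ℤ}
    (h : Co (du (H75.TwoArm.BB M) η) g g') (ha : Af a g) :
    ∀ a', Af a' g' → Ib M a' → a' ∉ K → KC M K a a' := by
  induction h with
  | refl =>
    intro a' h1 h2 h3
    exact KC.one (kg_of_ar ha h1) h2 h3
  | @tail g1 g2 _ h12 ih =>
    intro a' h1 h2 h3
    obtain ⟨hu, hB, hn⟩ := ad_du.1 h12
    have ho := odd_lbf hu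
    have hK : eu (lbf g1 g2) ∉ K := fun h4 => hn (hη ((mem_star_iff ho).2 (Or.inl h4)))
    obtain ⟨h5, h6⟩ := ar_ends hu (Or.inl rfl)
    exact (ih _ h5 (ib_ends hB).1 hK).trans (KC.one (kg_of_ar h6 h1) h2 h3)

/-- an open path off `star K` gives a king path off `K` -/
lemma kc_of_co {η : Finset (ℤ × ℤ)} (hη : Disjoint η (star K)) (hB : η ⊆ H75.TwoArm.BB M)
    {a b : ℤ × ℤ} (h : Co η a b) : KC M K a b := by
  induction h with
  | refl => exact KC.refl _
  | @tail b c _ hbc ih =>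
    have ho : ((b + c).1 + (b + c).2) % 2 = 1 := by
      have := unit_cases hbc.1
      simp only [Prod.fst_add, Prod.snd_add]
      omega
    have h1 : b + c ∉ star K := fun h2 => disjoint_left.1 hη hbc.2 h2
    rw [mem_star_iff ho, not_or] at h1
    have h2 := ib_ends (hB hbc.2)
    have h3 := unit_cases hbc.1
    refine ih.trans (KC.one (by unfold Kg; omega) ?_ ?_)
    · rcases H69.Q1.ends_of_add hbc.1 rfl with ⟨-, h4⟩ | ⟨-, h4⟩ <;> rw [h4]
      · exact h2.2
      · exact h2.1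
    · rcases H69.Q1.ends_of_add hbc.1 rfl with ⟨-, h4⟩ | ⟨-, h4⟩ <;> rw [h4]
      · exact h1.2
      · exact h1.1

/-- faces around two vertices joined by free vertices are joined -/
lemma ar_path {B η κ : Finset (ℤ × ℤ)} {u v : ℤ × ℤ} (h : Co κ u v) {P : ℤ × ℤ → Prop}
    (hP : ∀ a b, Ad κ a b → P a → P b) (hF : ∀ a, P a → Fr B η a) (hu : P u) :
    ∀ g g', Af u g → Af v g' → Co (du B η) g g' := by
  have key : P v ∧ ∀ g g', Af u g → Af v g' → Co (du B η) g g' := by
    induction h with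
    | refl => exact ⟨hu, fun g g' h1 h2 => ar_co (hF _ hu) h1 h2⟩
    | @tail b c _ hbc ih =>
      have hc := hP _ _ hbc ih.1
      refine ⟨hc, fun g g' h1 h2 => ?_⟩
      have h3 := unit_cases hbc.1
      obtain ⟨f, hf, hf'⟩ := ar_common (a := b) (b := c) (by unfold Kg; omega)
      exact (ih.2 g f h1 hf).trans (ar_co (hF _ hc) hf' h2)
  exact key.2

lemma ar_vx (c : ℤ × ℤ) : Af (vx c) (fi c) := by
  unfold Af vx fi
  simp only [Prod.ext_iff]
  omega

lemma ar_opc (z : ℤ × ℤ) : Af (vx (opc z)) (fi z) := by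
  have h := ar_vx (nxC (opc z))
  rw [(nxC_opc _).1, (nxC_opc _).2, opc_opc] at h
  exact h

/-- the faces of a label -/
lemma exists_faces {l : ℤ × ℤ} (hl : (l.1 + l.2) % 2 = 1) :
    ∃ g g' : ℤ × ℤ, IsUnit4 (g' - g) ∧ lbf g g' = l := by
  obtain ⟨a, b⟩ := l
  simp only at hl
  rcases Int.emod_two_eq_zero_or_one a with h | h
  · refine ⟨(a / 2, (b + 1) / 2), (a / 2 + 1, (b + 1) / 2), Or.inl ?_, ?_⟩
    · exact Prod.ext (by simp) (by simp)
    · unfold lbf
      exact Prod.ext (by simp only [Prod.fst_sub, Prod.fst_add]; omega)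
        (by simp only [Prod.snd_sub, Prod.snd_add]; omega)
  · refine ⟨((a + 1) / 2, b / 2), ((a + 1) / 2, b / 2 + 1), Or.inr (Or.inl ?_), ?_⟩
    · exact Prod.ext (by simp) (by simp)
    · unfold lbf
      exact Prod.ext (by simp only [Prod.fst_sub, Prod.fst_add]; omega)
        (by simp only [Prod.snd_sub, Prod.snd_add]; omega)

lemma ib_label {l a : ℤ × ℤ} {N : ℤ} (hl : (l.1 + l.2) % 2 = 1) (ha : a = eu l ∨ a = ev l)
    (hN : Ib (N - 1) a) : l ∈ H75.TwoArm.BB N := by
  unfold H75.TwoArm.BB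
  rw [mem_Bx]
  unfold Ib at hN
  unfold eu ev at ha
  simp only [Prod.ext_iff] at ha
  omega

end

/-! ### environments -/

/-- The conditions of `KT` without the ring condition. -/
structure KT0 (M : ℤ) (E W K : Finset (ℤ × ℤ)) (ct : ℤ × ℤ) : Prop where
  hE : E ⊆ H75.TwoArm.BB (M - 1)
  hW : W ⊆ H75.TwoArm.BB (M - 1)
  disj : Disjoint E W
  star : star K ⊆ E
  conn : ∀ u ∈ K, ∀ v ∈ K, Co (kap K) u v
  tip : vx (opc ct) ∈ K
  tipo : vx ct ∉ K
  tipp : plab ct ∉ Pool.Agent.Q1.M3.star K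
  wired : ∀ w ∈ W, Co W (eu w) (vx ct)
  free : ∀ g g', Co (du (H75.TwoArm.BB M) W) (fi ct) g → IsUnit4 (g' - g) → lbf g g' ∉ E →
    lbf g g' ∉ W → Co (du (H75.TwoArm.BB M) (E ∪ W)) (fi ct) g

section
variable {M : ℤ} {E W K : Finset (ℤ × ℤ)} {ct : ℤ × ℤ}

lemma BB_sub {a b : ℤ} (h : a ≤ b) : H75.TwoArm.BB a ⊆ H75.TwoArm.BB b := by
  intro l hl
  unfold H75.TwoArm.BB at hl ⊢
  rw [mem_Bx] at hl ⊢
  omega

lemma KT0.ib (h : KT0 M E W K ct) : ∀ v ∈ K, Ib (M - 2) v := by
  intro v hv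
  have key : ∀ l : ℤ × ℤ, l ∈ Pool.Agent.Q1.M3.star1 v → l ∈ H75.TwoArm.BB (M - 1) := fun l hl =>
    h.hE (h.star (Pool.Agent.Q1.M3.mem_star.2 ⟨v, hv, hl⟩))
  have h1 := key (2 * v.1 + 1, 2 * v.2) (by simp [Pool.Agent.Q1.M3.star1])
  have h2 := key (2 * v.1 - 1, 2 * v.2) (by simp [Pool.Agent.Q1.M3.star1])
  have h3 := key (2 * v.1, 2 * v.2 + 1) (by simp [Pool.Agent.Q1.M3.star1])
  have h4 := key (2 * v.1, 2 * v.2 - 1) (by simp [Pool.Agent.Q1.M3.star1])
  unfold H75.TwoArm.BB at h1 h2 h3 h4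
  rw [mem_Bx] at h1 h2 h3 h4
  simp only at h1 h2 h3 h4
  unfold Ib
  omega

lemma KT0.ib_tip (h : KT0 M E W K ct) : Ib (M - 1) (vx ct) := by
  have h1 : lab ct ∈ Pool.Agent.Q1.M3.star K := by rw [lab_star]; exact Or.inr h.tip
  have h2 := ib_ends (h.hE (h.star h1))
  rcases ends_lab ct with ⟨h3, -⟩ | ⟨h3, -⟩ <;> rw [h3]
  · exact h2.1
  · exact h2.2

/-- The vertex of the tip is outer. -/
lemma KT0.out (h : KT0 M E W K ct) : Out M K (vx ct) := by
  classical
  have hib := h.ib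
  have hM : 2 ≤ M := by
    have := hib _ h.tip
    unfold Ib at this
    omega
  have htip := h.ib_tip
  have htip' : Ib M (vx ct) := by unfold Ib at htip ⊢; omega
  have hWK : Disjoint W (Pool.Agent.Q1.M3.star K) :=
    disjoint_left.2 fun l h1 h2 => disjoint_left.1 h.disj (h.star h2) h1
  have hWM : W ⊆ H75.TwoArm.BB M := h.hW.trans (BB_sub (by omega))
  by_cases hg : Co (du (H75.TwoArm.BB M) W) (fi ct) (M, M)
  · have hl : lbf ((M, M) : ℤ × ℤ) (M, M + 1) ∉ H75.TwoArm.BB (M - 1) := by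
      unfold H75.TwoArm.BB
      rw [mem_Bx]
      unfold lbf
      simp only [Prod.fst_sub, Prod.snd_sub, Prod.fst_add, Prod.snd_add]
      omega
    have h1 := h.free (M, M) (M, M + 1) hg (Or.inr (Or.inl (Prod.ext (by simp) (by simp))))
      (fun h2 => hl (h.hE h2)) (fun h2 => hl (h.hW h2))
    have h2 := kc_of_dual (K := K) (h.star.trans subset_union_left) h1 (ar_vx ct) (M, M)
      (Or.inl rfl) (by unfold Ib; simp only; omega)
      (fun h3 => by have := hib _ h3; unfold Ib at this; simp only at this; omega)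
    exact ⟨htip', h.tipo, h2⟩
  · -- the highest vertex of the wired set
    set S : Finset (ℤ × ℤ) := insert (vx ct) (W.image eu ∪ W.image ev) with hS
    obtain ⟨u, huS, hu⟩ := Finset.exists_max_image S (fun v => v.2) ⟨vx ct, mem_insert_self _ _⟩
    have hend : ∀ l ∈ W, (l.1 + l.2) % 2 = 1 := by
      intro l hl
      have := h.hW hl
      unfold H75.TwoArm.BB at this
      rw [mem_Bx] at this
      exact this.2.2
    have hSf : ∀ v ∈ S, Ib (M - 1) v ∧ v ∉ K ∧ KC M K (vx ct) v := by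
      intro v hv
      rw [hS, mem_insert, mem_union, mem_image, mem_image] at hv
      rcases hv with rfl | ⟨l, hl, rfl⟩ | ⟨l, hl, rfl⟩
      · exact ⟨htip, h.tipo, KC.refl _⟩
      · refine ⟨(ib_ends (h.hW hl)).1, ?_, ?_⟩
        · exact fun h1 => disjoint_left.1 hWK hl ((mem_star_iff (hend l hl)).2 (Or.inl h1))
        · exact kc_of_co hWK hWM (h.wired l hl).symm
      · refine ⟨(ib_ends (h.hW hl)).2, ?_, ?_⟩
        · exact fun h1 => disjoint_left.1 hWK hl ((mem_star_iff (hend l hl)).2 (Or.inr h1))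
        · have h1 := PivAux.eu_ev (hend l hl)
          refine kc_of_co hWK hWM ((h.wired l hl).symm.trans
            (Relation.ReflTransGen.single ⟨h1.1, ?_⟩))
          rw [h1.2]; exact hl
    obtain ⟨hu1, hu2, hu3⟩ := hSf u huS
    have hFr : ∀ a, a ∈ K → Fr (H75.TwoArm.BB M) W a := by
      intro a ha l hl hal
      have h1 : l ∈ Pool.Agent.Q1.M3.star K := by
        rw [mem_star_iff hl]
        rcases hal with h2 | h2
        · exact Or.inl (h2 ▸ ha)
        · exact Or.inr (h2 ▸ ha)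
      exact ⟨BB_sub (by omega) (h.hE (h.star h1)), fun h2 => disjoint_left.1 hWK h2 h1⟩
    have hray : ∀ y, u.2 < y → (u.1, y) ∉ K := by
      intro y hy hk
      apply hg
      have hky := hib _ hk
      have h1 : Co (du (H75.TwoArm.BB M) W) (fi ct) (u.1, y + 1) := by
        refine ar_path (h.conn _ h.tip _ hk) (P := fun a => a ∈ K) ?_ hFr h.tip _ _ (ar_opc ct)
          (Or.inr (Or.inr (Or.inr rfl)))
        intro a b hab ha
        exact co_kap (Relation.ReflTransGen.single hab) ha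
      have h2 : ∀ t, y + 1 ≤ t → t ≤ M → Co (du (H75.TwoArm.BB M) W) (u.1, y + 1) (u.1, t) := by
        intro t ht
        induction t, ht using Int.leInduction with
        | base => intro _; exact Co.refl _ _
        | succ n hn ih =>
          intro hn'
          refine (ih (by omega)).tail (ad_du.2 ⟨Or.inr (Or.inl (Prod.ext (by simp) (by simp))), ?_, ?_⟩)
          · unfold H75.TwoArm.BB
            rw [mem_Bx]
            unfold Ib at hky
            unfold lbf
            simp only [Prod.fst_sub, Prod.snd_sub, Prod.fst_add, Prod.snd_add] at hky ⊢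
            omega
          · intro hW
            have h3 := hu (eu (lbf (u.1, n) (u.1, n + 1))) (by
              rw [hS, mem_insert, mem_union, mem_image]
              exact Or.inr (Or.inl ⟨_, hW, rfl⟩))
            unfold eu lbf at h3
            simp only [Prod.snd_sub, Prod.snd_add] at h3
            omega
      have h4 : ∀ s, u.1 ≤ s → s ≤ M → Co (du (H75.TwoArm.BB M) W) (u.1, M) (s, M) := by
        intro s hs
        induction s, hs using Int.leInduction with
        | base => intro _; exact Co.refl _ _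
        | succ n hn ih =>
          intro hn'
          refine (ih (by omega)).tail (ad_du.2 ⟨Or.inl (Prod.ext (by simp) (by simp)), ?_, ?_⟩)
          · unfold H75.TwoArm.BB
            rw [mem_Bx]
            unfold Ib at hky
            unfold lbf
            simp only [Prod.fst_sub, Prod.snd_sub, Prod.fst_add, Prod.snd_add] at hky ⊢
            omega
          · intro hW
            have h5 := h.hW hW
            unfold H75.TwoArm.BB at h5
            rw [mem_Bx] at h5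
            unfold lbf at h5
            simp only [Prod.fst_sub, Prod.snd_sub, Prod.fst_add, Prod.snd_add] at h5
            omega
      unfold Ib at hky hu1
      simp only at hky
      exact (h1.trans (h2 M (by omega) le_rfl)).trans (h4 M (by omega) le_rfl)
    have h5 : KC M K u (u.1, M) := by
      unfold Ib at hu1
      refine kc_ver (x := u.1) (y := u.2) (by omega) fun t h6 h7 => ⟨?_, hray t h6⟩
      unfold Ib; simp only; omega
    have h6 : Out M K (u.1, M) := by
      refine out_far hib ?_ ?_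
      · unfold Ib at hu1 ⊢; simp only; omega
      · unfold Ib; simp only; omega
    exact h6.of_kc htip' h.tipo (hu3.trans h5)

/-- a vertex joined to the tip by labels off `star K` is outer -/
lemma KT0.out_of_co (h : KT0 M E W K ct) {η : Finset (ℤ × ℤ)}
    (hη : Disjoint η (Pool.Agent.Q1.M3.star K)) (hB : η ⊆ H75.TwoArm.BB M) {v : ℤ × ℤ}
    (hv : Co η v (vx ct)) : Out M K v := by
  have hvK : v ∉ K := fun h1 => h.tipo (by
    have h2 := co_isol hη hv.symm h1
    rw [h2]; exact h1)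
  have htip' : Ib M (vx ct) := h.out.1
  have hvM : Ib M v := by
    rcases Relation.ReflTransGen.cases_head hv with h1 | ⟨b, hb, -⟩
    · rw [h1]; exact htip'
    · have h2 := ib_ends (hB hb.2)
      rcases H69.Q1.ends_of_add hb.1 rfl with ⟨h3, -⟩ | ⟨h3, -⟩
      · rw [h3]; exact h2.1
      · rw [h3]; exact h2.2
  exact h.out.of_kc hvM hvK (kc_of_co hη hB hv)

lemma KT0.sub_fill (h : KT0 M E W K ct) : K ⊆ fill M K := subset_fill fun v hv => by
  have := h.ib v hv
  unfold Ib at this ⊢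
  omega

lemma KT0.disj_fill (h : KT0 M E W K ct) : ∀ l ∈ Pool.Agent.Q1.M3.star (fill M K), l ∉ W := by
  intro l hl hW
  have ho := Pool.Agent.Q1.M3.odd_star hl
  have hWK : Disjoint W (Pool.Agent.Q1.M3.star K) :=
    disjoint_left.2 fun l h1 h2 => disjoint_left.1 h.disj (h.star h2) h1
  have hWM : W ⊆ H75.TwoArm.BB M := h.hW.trans (BB_sub (by omega))
  rw [mem_star_iff ho] at hl
  have h1 := PivAux.eu_ev ho
  rcases hl with h2 | h2
  · exact (mem_fill.1 h2).2 (h.out_of_co hWK hWM (h.wired l hW))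
  · refine (mem_fill.1 h2).2 (h.out_of_co hWK hWM (Co.trans (Co.symm
      (Relation.ReflTransGen.single ⟨h1.1, ?_⟩)) (h.wired l hW)))
    rw [h1.2]; exact hW

lemma KT0.star_fill (h : KT0 M E W K ct) : Pool.Agent.Q1.M3.star (fill M K) ⊆ E := by
  intro l hl
  by_contra hlE
  have ho := Pool.Agent.Q1.M3.odd_star hl
  have hlW := h.disj_fill l hl
  have hib := h.ib
  obtain ⟨v, hv, hvl⟩ : ∃ v ∈ fill M K, v = eu l ∨ v = ev l := by
    rw [mem_star_iff ho] at hl
    rcases hl with h1 | h1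
    · exact ⟨_, h1, Or.inl rfl⟩
    · exact ⟨_, h1, Or.inr rfl⟩
  have hvK : v ∉ K := by
    intro h1
    apply hlE
    apply h.star
    rw [mem_star_iff ho]
    rcases hvl with h2 | h2
    · exact Or.inl (h2 ▸ h1)
    · exact Or.inr (h2 ▸ h1)
  obtain ⟨g, g', hg, hgl⟩ := exists_faces ho
  have hFr : ∀ a, a ∈ fill M K → Fr (H75.TwoArm.BB M) W a := by
    intro a ha l' hl' hal
    have h1 : l' ∈ Pool.Agent.Q1.M3.star (fill M K) := by
      rw [mem_star_iff hl']
      rcases hal with h2 | h2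
      · exact Or.inl (h2 ▸ ha)
      · exact Or.inr (h2 ▸ ha)
    refine ⟨ib_label hl' hal ?_, h.disj_fill _ h1⟩
    have := fill_ib hib ha
    unfold Ib at this ⊢
    omega
  have hag : Af v g := (ar_ends hg (by rw [hgl]; exact hvl)).1
  have h1 : Co (du (H75.TwoArm.BB M) W) (fi ct) g := by
    refine ar_path (fill_conn hib h.conn _ (h.sub_fill h.tip) _ hv)
      (P := fun a => a ∈ fill M K) ?_ hFr (h.sub_fill h.tip) _ _ (ar_opc ct) hag
    intro a b hab ha
    exact co_kap (Relation.ReflTransGen.single hab) ha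
  have h2 := h.free g g' h1 hg (by rw [hgl]; exact hlE) (by rw [hgl]; exact hlW)
  have h3 := kc_of_dual (K := K) (h.star.trans subset_union_left) h2.symm hag _ (ar_vx ct)
    h.out.1 h.tipo
  exact (mem_fill.1 hv).2 (h.out.of_kc (mem_fill.1 hv).1 hvK h3)

lemma plab_end (z : ℤ × ℤ) : (vx z = eu (plab z) ∨ vx z = ev (plab z)) ∧
    ((plab z).1 + (plab z).2) % 2 = 1 := by
  obtain ⟨a, b⟩ := z
  unfold plab vx eu ev
  simp only
  split_ifs with h1 h2 h2
  · refine ⟨Or.inr (Prod.ext ?_ ?_), ?_⟩ <;> simp only <;> omega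
  · refine ⟨Or.inr (Prod.ext ?_ ?_), ?_⟩ <;> simp only <;> omega
  · refine ⟨Or.inl (Prod.ext ?_ ?_), ?_⟩ <;> simp only <;> omega
  · refine ⟨Or.inl (Prod.ext ?_ ?_), ?_⟩ <;> simp only <;> omega

lemma kg_ends {l u v : ℤ × ℤ} (hl : (l.1 + l.2) % 2 = 1) (hu : u = eu l ∨ u = ev l)
    (hv : v = eu l ∨ v = ev l) : Kg u v := by
  unfold Kg
  unfold eu ev at hu hv
  simp only [Prod.ext_iff] at hu hv
  omega

lemma KT0.tipp_fill (h : KT0 M E W K ct) : plab ct ∉ Pool.Agent.Q1.M3.star (fill M K) := by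
  intro h1
  obtain ⟨h2, ho⟩ := plab_end ct
  obtain ⟨v, hv, hvl⟩ : ∃ v ∈ fill M K, v = eu (plab ct) ∨ v = ev (plab ct) := by
    rw [mem_star_iff ho] at h1
    rcases h1 with h1 | h1
    · exact ⟨_, h1, Or.inl rfl⟩
    · exact ⟨_, h1, Or.inr rfl⟩
  have hvK : v ∉ K := by
    intro h3
    apply h.tipp
    rw [mem_star_iff ho]
    rcases hvl with h4 | h4
    · exact Or.inl (h4 ▸ h3)
    · exact Or.inr (h4 ▸ h3)
  exact (mem_fill.1 (mem_fill_of_kg hv hvK (kg_ends ho hvl h2) h.out.1)).2 h.out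

lemma KT0.ring_fill (h : KT0 M E W K ct) {z : ℤ × ℤ} (hz : vx z ∈ fill M K)
    (hz' : vx (opc z) ∉ fill M K) :
    Co (du (H75.TwoArm.BB (M + 1)) (kap (fill M K))) (fi z) (M, M) := by
  have hib := h.ib
  have hx : Out M K (vx (opc z)) := by
    by_contra h1
    refine hz' (mem_fill.2 ⟨?_, h1⟩)
    have h2 := fill_ib hib hz
    have h3 : Kg (vx z) (vx (opc z)) := by
      refine kg_ends (H69.Q1.odd_lab z) ?_ ?_ <;>
      rcases ends_lab z with ⟨h3, h4⟩ | ⟨h3, h4⟩ <;> simp [h3, h4]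
    unfold Ib at h2 ⊢
    unfold Kg at h3
    omega
  have hFr : ∀ a, Out M K a → Fr (H75.TwoArm.BB (M + 1)) (kap (fill M K)) a := by
    intro a ha l hl hal
    refine ⟨ib_label hl hal ?_, ?_⟩
    · have := ha.1
      unfold Ib at this ⊢
      omega
    · intro h1
      rw [mem_kap_iff hl] at h1
      rcases hal with h2 | h2
      · exact (mem_fill.1 h1.1).2 (h2 ▸ ha)
      · exact (mem_fill.1 h1.2).2 (h2 ▸ ha)
  have key : ∀ b, KC M K (vx (opc z)) b → ∀ g, Af b g →
      Co (du (H75.TwoArm.BB (M + 1)) (kap (fill M K))) (fi z) g := by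
    intro b hb
    induction hb with
    | refl => intro g hg; exact ar_co (hFr _ hx) (ar_opc z) hg
    | @tail b c hb hbc ih =>
      intro g hg
      have h1 : Out M K b := Out.mem_path hb hx
      have h2 : Out M K c := Out.mem_path (KC.one hbc.1 hbc.2.1 hbc.2.2) h1
      obtain ⟨f, hf, hf'⟩ := ar_common hbc.1
      exact (ih f hf).trans (ar_co (hFr _ h2) hf' hg)
  exact key _ hx.2.2 _ (Or.inl rfl)

/-- **Filling.** -/
theorem KT0.filled (h : KT0 M E W K ct) : KT M E W (fill M K) ct where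
  hE := h.hE
  hW := h.hW
  disj := h.disj
  star := h.star_fill
  conn := fill_conn h.ib h.conn
  tip := h.sub_fill h.tip
  tipo := fun h1 => (mem_fill.1 h1).2 h.out
  tipp := h.tipp_fill
  wired := h.wired
  free := h.free
  ring := fun _ _ h1 h2 h3 h4 => ⟨_, (h.ring_fill h1 h2).trans (h.ring_fill h3 h4).symm⟩

/-! ### the filled set and balls, other sets -/

lemma KC.mono {L : Finset (ℤ × ℤ)} (hKL : K ⊆ L) {a b : ℤ × ℤ} (h : KC M L a b) : KC M K a b := by
  induction h with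
  | refl => exact KC.refl _
  | tail _ hbc ih => exact ih.trans (KC.one hbc.1 hbc.2.1 fun h1 => hbc.2.2 (hKL h1))

/-- the filled set is contained in every set with king-connected complement which contains `K` -/
lemma fill_subset {L : Finset (ℤ × ℤ)} (hKL : K ⊆ L)
    (hL : ∀ v, Ib M v → v ∉ L → KC M L v (M, M)) : fill M K ⊆ L := by
  intro v hv
  by_contra hvL
  rw [mem_fill] at hv
  exact hv.2 ⟨hv.1, fun h1 => hvL (hKL h1), (hL v hv.1 hvL).mono hKL⟩

/-- king path in a rectangle off `K` -/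
lemma kc_rect {a b c d : ℤ} (hR : ∀ v : ℤ × ℤ, (a ≤ v.1 ∧ v.1 ≤ b) ∧ (c ≤ v.2 ∧ v.2 ≤ d) →
    Ib M v ∧ v ∉ K) {u v : ℤ × ℤ} (hu : (a ≤ u.1 ∧ u.1 ≤ b) ∧ (c ≤ u.2 ∧ u.2 ≤ d))
    (hv : (a ≤ v.1 ∧ v.1 ≤ b) ∧ (c ≤ v.2 ∧ v.2 ≤ d)) : KC M K u v := by
  -- every vertex of the rectangle is joined to the corner `(b, d)` and back
  have h1 : ∀ w : ℤ × ℤ, (a ≤ w.1 ∧ w.1 ≤ b) ∧ (c ≤ w.2 ∧ w.2 ≤ d) →
      KC M K w (b, d) ∧ KC M K (b, d) w := by
    rintro ⟨x, y⟩ hw
    simp only at hw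
    have p1 : KC M K (x, y) (b, y) := kc_hor (by omega) fun t _ _ => hR _ (by simp only; omega)
    have p2 : KC M K (b, y) (b, d) := kc_ver (by omega) fun t _ _ => hR _ (by simp only; omega)
    have hs : ∀ p q : ℤ × ℤ, KC M K p q → (a ≤ p.1 ∧ p.1 ≤ b) ∧ (c ≤ p.2 ∧ p.2 ≤ d) →
        KC M K q p := by
      intro p q hpq hp
      have := hR p hp
      induction hpq with
      | refl => exact KC.refl _
      | @tail r s hpr hrs ih =>
        refine KC.trans ?_ ih
        rcases Relation.ReflTransGen.cases_tail hpr with h2 | ⟨e, -, he⟩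
        · rw [h2]; rw [h2] at hrs; exact KC.one hrs.1.symm this.1 this.2
        · exact KC.one hrs.1.symm he.2.1 he.2.2
    exact ⟨p1.trans p2, (hs _ _ p2 (by simp only; omega)).trans (hs _ _ p1 (by simp only; omega))⟩
  exact (h1 u hu).1.trans (h1 v hv).2

/-- If the ball `B(p, m)` is off `K` and one of its vertices is outer, it is off the filled set. -/
lemma fill_ball {p : ℤ × ℤ} {m : ℤ}
    (hp : ∀ w : ℤ × ℤ, |w.1 - p.1| ≤ m → |w.2 - p.2| ≤ m → w ∉ K) {v : ℤ × ℤ} (hv : Out M K v)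
    (hv1 : |v.1 - p.1| ≤ m) (hv2 : |v.2 - p.2| ≤ m) {w : ℤ × ℤ} (hw1 : |w.1 - p.1| ≤ m)
    (hw2 : |w.2 - p.2| ≤ m) : w ∉ fill M K := by
  intro hw
  rw [mem_fill] at hw
  refine hw.2 (hv.of_kc hw.1 (hp w hw1 hw2) ?_)
  have h1 := hw.1
  have h2 := hv.1
  unfold Ib at h1 h2
  rw [abs_le] at hv1 hv2 hw1 hw2
  refine kc_rect (a := max (-M) (p.1 - m)) (b := min M (p.1 + m)) (c := max (-M) (p.2 - m))
    (d := min M (p.2 + m)) ?_ ?_ ?_
  · intro q hq
    refine ⟨by unfold Ib; omega, hp q ?_ ?_⟩ <;> rw [abs_le] <;> omega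
  · omega
  · omega

lemma fill_far {p : ℤ × ℤ} {m : ℤ}
    (hp : ∀ u ∈ K, m + 1 ≤ |u.1 - p.1| ∨ m + 1 ≤ |u.2 - p.2|) {v : ℤ × ℤ} (hv : Out M K v)
    (hv1 : |v.1 - p.1| ≤ m) (hv2 : |v.2 - p.2| ≤ m) :
    ∀ u ∈ fill M K, m + 1 ≤ |u.1 - p.1| ∨ m + 1 ≤ |u.2 - p.2| := by
  intro u hu
  by_contra h1
  push Not at h1
  refine fill_ball (p := p) (m := m) ?_ hv hv1 hv2 (w := u) (by omega) (by omega) hu
  intro w h2 h3 h4
  rcases hp w h4 with h5 | h5 <;> omega

/-- the labels of `O` are off the star of the filled set -/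
lemma KT0.opens (h : KT0 M E W K ct) {O : Finset (ℤ × ℤ)}
    (hO : O ⊆ E \ Pool.Agent.Q1.M3.star K)
    (hT : ∀ o ∈ O, Co (O ∪ W) (eu o) (vx ct)) :
    O ⊆ E \ Pool.Agent.Q1.M3.star (fill M K) := by
  intro o ho
  have h1 := mem_sdiff.1 (hO ho)
  refine mem_sdiff.2 ⟨h1.1, fun h2 => ?_⟩
  have hod := Pool.Agent.Q1.M3.odd_star h2
  have hd : Disjoint (O ∪ W) (Pool.Agent.Q1.M3.star K) := by
    rw [disjoint_left]
    intro l hl hl'
    rcases mem_union.1 hl with h3 | h3
    · exact (mem_sdiff.1 (hO h3)).2 hl'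
    · exact disjoint_left.1 h.disj (h.star hl') h3
  have hB : O ∪ W ⊆ H75.TwoArm.BB M := by
    intro l hl
    rcases mem_union.1 hl with h3 | h3
    · exact BB_sub (by omega) (h.hE (mem_sdiff.1 (hO h3)).1)
    · exact BB_sub (by omega) (h.hW h3)
  have h3 := PivAux.eu_ev hod
  rw [mem_star_iff hod] at h2
  rcases h2 with h4 | h4
  · exact (mem_fill.1 h4).2 (h.out_of_co hd hB (hT o ho))
  · refine (mem_fill.1 h4).2 (h.out_of_co hd hB (Co.trans (Co.symm
      (Relation.ReflTransGen.single ⟨h3.1, ?_⟩)) (hT o ho)))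
    rw [h3.2]; exact mem_union_left _ ho

end

end Pool.Agent.H23.Q1
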