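import Mathlib
import Pool.Agent.H23.Q1.Fill
import Pool.Agent.Q1.M6c.Dob

set_option autoImplicit false
open Finset

/-! The filled set in rough Dobrushin environments: `Dobr E W ct` gives the conditions `KT0` in every
box which contains `E` and `W` strictly. Dual paths in the plane are clamped to the box. -/

namespace Pool.Agent.H23.Q1

open Pool.Agent.H75.Perc Pool.Agent.H75.TwoArm Pool.Agent.H75.Four Pool.Agent.H77.Q1
open Pool.Agent.Q1.M3 (star kap mem_star_iff mem_kap_iff)
open Pool.Agent.Q1 (DCo)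
open Pool.Agent.H75.TwoArm.StrandAux hiding vx_nxC

/-- clamping a face to the box of radius `M` -/
def cla (M : ℤ) (g : ℤ × ℤ) : ℤ × ℤ := (max (-M + 1) (min g.1 M), max (-M + 1) (min g.2 M))

section
variable {M : ℤ} {η : Finset (ℤ × ℤ)}

lemma clamp_hor (hM : 1 ≤ M) (hη : η ⊆ H75.TwoArm.BB (M - 1)) {x y : ℤ}
    (h : ((2 * x, 2 * y - 1) : ℤ × ℤ) ∉ η) :
    Co (du (H75.TwoArm.BB M) η) (cla M (x, y)) (cla M (x + 1, y)) := by
  by_cases hx : -M + 1 ≤ x ∧ x ≤ M - 1
  · have h1 : cla M (x, y) = (x, max (-M + 1) (min y M)) := by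
      unfold cla; exact Prod.ext (by simp only; omega) rfl
    have h2 : cla M (x + 1, y) = (x + 1, max (-M + 1) (min y M)) := by
      unfold cla; exact Prod.ext (by simp only; omega) rfl
    rw [h1, h2]
    refine Relation.ReflTransGen.single (ad_du.2 ⟨Or.inl (Prod.ext (by simp) (by simp)), ?_, ?_⟩)
    · unfold H75.TwoArm.BB lbf
      rw [mem_Bx]
      simp only [Prod.fst_sub, Prod.snd_sub, Prod.fst_add, Prod.snd_add]
      omega
    · by_cases hy : -M + 1 ≤ y ∧ y ≤ M
      · have h3 : lbf (x, max (-M + 1) (min y M)) (x + 1, max (-M + 1) (min y M)) =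
            (2 * x, 2 * y - 1) := by
          unfold lbf
          exact Prod.ext (by simp only [Prod.fst_sub, Prod.fst_add]; omega)
            (by simp only [Prod.snd_sub, Prod.snd_add]; omega)
        rw [h3]; exact h
      · intro h4
        have h5 := hη h4
        unfold H75.TwoArm.BB lbf at h5
        rw [mem_Bx] at h5
        simp only [Prod.fst_sub, Prod.snd_sub, Prod.fst_add, Prod.snd_add] at h5
        omega
  · have h1 : cla M (x + 1, y) = cla M (x, y) := by
      unfold cla; exact Prod.ext (by simp only; omega) rfl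
    rw [h1]; exact Co.refl _ _

lemma clamp_ver (hM : 1 ≤ M) (hη : η ⊆ H75.TwoArm.BB (M - 1)) {x y : ℤ}
    (h : ((2 * x - 1, 2 * y) : ℤ × ℤ) ∉ η) :
    Co (du (H75.TwoArm.BB M) η) (cla M (x, y)) (cla M (x, y + 1)) := by
  by_cases hx : -M + 1 ≤ y ∧ y ≤ M - 1
  · have h1 : cla M (x, y) = (max (-M + 1) (min x M), y) := by
      unfold cla; exact Prod.ext rfl (by simp only; omega)
    have h2 : cla M (x, y + 1) = (max (-M + 1) (min x M), y + 1) := by
      unfold cla; exact Prod.ext rfl (by simp only; omega)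
    rw [h1, h2]
    refine Relation.ReflTransGen.single (ad_du.2
      ⟨Or.inr (Or.inl (Prod.ext (by simp) (by simp))), ?_, ?_⟩)
    · unfold H75.TwoArm.BB lbf
      rw [mem_Bx]
      simp only [Prod.fst_sub, Prod.snd_sub, Prod.fst_add, Prod.snd_add]
      omega
    · by_cases hy : -M + 1 ≤ x ∧ x ≤ M
      · have h3 : lbf (max (-M + 1) (min x M), y) (max (-M + 1) (min x M), y + 1) =
            (2 * x - 1, 2 * y) := by
          unfold lbf
          exact Prod.ext (by simp only [Prod.fst_sub, Prod.fst_add]; omega)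
            (by simp only [Prod.snd_sub, Prod.snd_add]; omega)
        rw [h3]; exact h
      · intro h4
        have h5 := hη h4
        unfold H75.TwoArm.BB lbf at h5
        rw [mem_Bx] at h5
        simp only [Prod.fst_sub, Prod.snd_sub, Prod.fst_add, Prod.snd_add] at h5
        omega
  · have h1 : cla M (x, y + 1) = cla M (x, y) := by
      unfold cla; exact Prod.ext rfl (by simp only; omega)
    rw [h1]; exact Co.refl _ _

lemma clamp_step (hM : 1 ≤ M) (hη : η ⊆ H75.TwoArm.BB (M - 1)) {g g' : ℤ × ℤ}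
    (hg : IsUnit4 (g' - g)) (h : lbf g g' ∉ η) :
    Co (du (H75.TwoArm.BB M) η) (cla M g) (cla M g') := by
  obtain ⟨x, y⟩ := g
  obtain ⟨x', y'⟩ := g'
  have h1 := unit_cases hg
  simp only at h1
  unfold lbf at h
  rcases h1 with ⟨rfl, rfl⟩ | ⟨rfl, rfl⟩ | ⟨h2, rfl⟩ | ⟨rfl, h2⟩
  · refine clamp_hor hM hη fun h3 => h ?_
    convert h3 using 1
    exact Prod.ext (by simp only [Prod.fst_sub, Prod.fst_add]; omega)
      (by simp only [Prod.snd_sub, Prod.snd_add]; omega)
  · refine clamp_ver hM hη fun h3 => h ?_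
    convert h3 using 1
    exact Prod.ext (by simp only [Prod.fst_sub, Prod.fst_add]; omega)
      (by simp only [Prod.snd_sub, Prod.snd_add]; omega)
  · obtain rfl : x = x' + 1 := by omega
    refine (clamp_hor hM hη fun h3 => h ?_).symm
    convert h3 using 1
    exact Prod.ext (by simp only [Prod.fst_sub, Prod.fst_add]; omega)
      (by simp only [Prod.snd_sub, Prod.snd_add]; omega)
  · obtain rfl : y = y' + 1 := by omega
    refine (clamp_ver hM hη fun h3 => h ?_).symm
    convert h3 using 1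
    exact Prod.ext (by simp only [Prod.fst_sub, Prod.fst_add]; omega)
      (by simp only [Prod.snd_sub, Prod.snd_add]; omega)

/-- Dual paths in the plane can be clamped to the box. -/
lemma dco_clamp (hM : 1 ≤ M) (hη : η ⊆ H75.TwoArm.BB (M - 1)) {g g' : ℤ × ℤ} (h : DCo η g g') :
    Co (du (H75.TwoArm.BB M) η) (cla M g) (cla M g') := by
  obtain ⟨F, hF⟩ := h
  induction hF with
  | refl => exact Co.refl _ _
  | tail _ hbc ih =>
    have h1 := ad_du.1 hbc
    exact ih.trans (clamp_step hM hη h1.1 h1.2.2)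

/-- a face of a label of the box is joined to its clamp -/
lemma cla_face (hη : η ⊆ H75.TwoArm.BB (M - 1)) {g g' : ℤ × ℤ} (hg : IsUnit4 (g' - g))
    (hl : lbf g g' ∈ H75.TwoArm.BB M) : Co (du (H75.TwoArm.BB M) η) (cla M g) g := by
  obtain ⟨x, y⟩ := g
  obtain ⟨x', y'⟩ := g'
  have h1 := unit_cases hg
  unfold lbf H75.TwoArm.BB at hl
  rw [mem_Bx] at hl
  simp only [Prod.fst_sub, Prod.snd_sub, Prod.fst_add, Prod.snd_add] at h1 hl
  by_cases h2 : (-M + 1 ≤ x ∧ x ≤ M) ∧ (-M + 1 ≤ y ∧ y ≤ M)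
  · have h3 : cla M (x, y) = (x, y) := by
      unfold cla; exact Prod.ext (by simp only; omega) (by simp only; omega)
    rw [h3]; exact Co.refl _ _
  · -- one step across the frame
    refine Relation.ReflTransGen.single (ad_du.2 ⟨?_, ?_, ?_⟩)
    · unfold cla IsUnit4
      simp only [Prod.ext_iff, Prod.fst_sub, Prod.snd_sub]
      omega
    · unfold H75.TwoArm.BB lbf cla
      rw [mem_Bx]
      simp only [Prod.fst_sub, Prod.snd_sub, Prod.fst_add, Prod.snd_add]
      omega
    · intro h4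
      have h5 := hη h4
      unfold H75.TwoArm.BB lbf cla at h5
      rw [mem_Bx] at h5
      simp only [Prod.fst_sub, Prod.snd_sub, Prod.fst_add, Prod.snd_add] at h5
      omega

end

section
variable {M : ℤ} {E W K : Finset (ℤ × ℤ)} {ct : ℤ × ℤ}

/-- a corner with a given face and a given label -/
lemma exists_corner {g g' : ℤ × ℤ} (hg : IsUnit4 (g' - g)) :
    ∃ z, fi z = g ∧ lab z = lbf g g' := by
  have ho := odd_lbf hg
  have hz := Pool.Agent.H75.Four.opc_zu ho
  have h1 : lab (zu (lbf g g')) = lbf g g' := hz.2.2.1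
  have h2 : lab (zv (lbf g g')) = lbf g g' := hz.2.2.2.1
  have h3 : fi (nxC (zu (lbf g g'))) = fi (zv (lbf g g')) := by rw [(nxC_opc _).2, hz.1]
  have h4 := lbf_nxC (zu (lbf g g'))
  rw [h1] at h4
  rcases faces_unique hg (fi_nxC (zu (lbf g g'))).1 h4.symm with h5 | h5
  · exact ⟨_, h5.symm, h1⟩
  · exact ⟨_, (h5.trans h3).symm, h2⟩

/-- **Rough Dobrushin environments.** -/
theorem KT0.of_dobr (h : Pool.Agent.Q1.M6c.Dobr E W ct) (hE : E ⊆ H75.TwoArm.BB (M - 1))
    (hW : W ⊆ H75.TwoArm.BB (M - 1)) (hst : Pool.Agent.Q1.M3.star K ⊆ E)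
    (hc : ∀ u ∈ K, ∀ v ∈ K, Co (kap K) u v)
    (ht : vx (opc ct) ∈ K) (ht' : vx ct ∉ K) (hp : plab ct ∉ Pool.Agent.Q1.M3.star K) :
    KT0 M E W K ct := by
  have hlct : lab ct ∈ E := hst (by rw [lab_star]; exact Or.inr ht)
  have hM : 1 ≤ M := by
    have := hE hlct
    unfold H75.TwoArm.BB at this
    rw [mem_Bx] at this
    omega
  have hEW : E ∪ W ⊆ H75.TwoArm.BB (M - 1) := union_subset hE hW
  refine ⟨hE, hW, h.disj, hst, hc, ht, ht', hp, ?_, ?_⟩
  · intro w hw
    have ho := h.oddW w hw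
    have h1 := Pool.Agent.H75.Four.opc_zu ho
    have h2 := h.wco (zu w) (by rw [h1.2.2.1]; exact hw)
    rw [h1.2.2.2.2.1] at h2
    exact h2.symm
  · intro g g' h1 h2 h3 h4
    obtain ⟨z, hz, hz'⟩ := exists_corner h2
    have h5 := h.lco z (by rw [hz']; exact h3) (by rw [hz']; exact h4)
    rw [hz] at h5
    have h6 := dco_clamp hM hEW h5
    have h7 : Co (du (H75.TwoArm.BB M) (E ∪ W)) (cla M (fi ct)) (fi ct) := by
      refine cla_face hEW (fi_nxC ct).1 ?_
      rw [lbf_nxC]
      exact BB_sub (by omega) (hE hlct)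
    have h8 : Co (du (H75.TwoArm.BB M) (E ∪ W)) (cla M g) g := by
      rcases Relation.ReflTransGen.cases_tail h1 with h9 | ⟨b, -, hb⟩
      · rw [h9]; exact h7
      · have h10 := ad_du.1 hb
        refine cla_face (g' := b) hEW (unit4_neg h10.1) ?_
        rw [lbf_comm]; exact h10.2.1
    exact (h7.symm.trans h6).trans h8

/-- The filled set in a rough Dobrushin environment. -/
theorem KT.of_dobr (h : Pool.Agent.Q1.M6c.Dobr E W ct) (hE : E ⊆ H75.TwoArm.BB (M - 1))
    (hW : W ⊆ H75.TwoArm.BB (M - 1)) (hst : Pool.Agent.Q1.M3.star K ⊆ E)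
    (hc : ∀ u ∈ K, ∀ v ∈ K, Co (kap K) u v)
    (ht : vx (opc ct) ∈ K) (ht' : vx ct ∉ K) (hp : plab ct ∉ Pool.Agent.Q1.M3.star K) :
    KT M E W (fill M K) ct := (KT0.of_dobr h hE hW hst hc ht ht' hp).filled

end

end Pool.Agent.H23.Q1
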