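import Mathlib
import Pool.Agent.H23.Q1.FillDob
import Pool.Agent.H77.Q1.K3e

set_option autoImplicit false
open Finset

/-! Filling a connected set of faces: colour dual of `Fill`. -/

namespace Pool.Agent.H23.Q1

open Pool.Agent.H75.Perc hiding dl
open Pool.Agent.H75.TwoArm Pool.Agent.H75.Four
open Pool.Agent.H77.Q1 hiding ad_du
open Pool.Agent.H75.TwoArm.StrandAux hiding vx_nxC
open Pool.Agent.Q1.M3 (star kap mem_star_iff mem_kap_iff)
open Pool.Agent.Q1 (DCo)

/-- The conditions of `KD` without the ring condition. -/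
structure KD0 (M : ℤ) (E W K : Finset (ℤ × ℤ)) (ct : ℤ × ℤ) : Prop where
  hE : E ⊆ H75.TwoArm.BB (M - 1)
  hW : W ⊆ H75.TwoArm.BB (M - 1)
  disj : Disjoint E W
  star : starf K ⊆ E
  conn : ∀ u ∈ K, ∀ v ∈ K, Co (kap (K.image tr)) (tr u) (tr v)
  tip : fi (opc ct) ∈ K
  tipo : fi ct ∉ K
  tipp : plab ct ∉ starf K
  wired : ∀ w ∈ W, Co W (eu w) (vx ct)
  free : ∀ g g', IsUnit4 (g' - g) → lbf g g' ∈ H75.TwoArm.BB M → lbf g g' ∉ E → lbf g g' ∉ W →
    Co (du (H75.TwoArm.BB M) (E ∪ W)) (fi ct) g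

/-- the filled set of faces -/
noncomputable def fillf (M : ℤ) (K : Finset (ℤ × ℤ)) : Finset (ℤ × ℤ) :=
  (fill (M + 2) (K.image tr)).image tr

lemma image_tr_tr (K : Finset (ℤ × ℤ)) : (K.image tr).image tr = K := by
  rw [image_image]
  have : tr ∘ tr = id := by funext v; exact tr_tr v
  rw [this, image_id]

lemma mem_image_tr {K : Finset (ℤ × ℤ)} {v : ℤ × ℤ} : v ∈ K.image tr ↔ tr v ∈ K := by
  rw [mem_image]
  constructor
  · rintro ⟨u, hu, rfl⟩; rw [tr_tr]; exact hu
  · exact fun h => ⟨_, h, tr_tr v⟩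

lemma mem_fillf {M : ℤ} {K : Finset (ℤ × ℤ)} {g : ℤ × ℤ} :
    g ∈ fillf M K ↔ tr g ∈ fill (M + 2) (K.image tr) := mem_image_tr

section
variable {M : ℤ} {E W K : Finset (ℤ × ℤ)} {ct : ℤ × ℤ}

lemma KD0.tipB (h : KD0 M E W K ct) : lab ct ∈ starf K := by
  rw [← mem_dl_starf, ← lab_dc, lab_star]
  right
  rw [opc_dc, vx_dc]
  exact mem_image_of_mem _ h.tip

/-- The colour dual of `KD0` is `KT0`. -/
theorem KD0.dual (h : KD0 M E W K ct) :
    KT0 (M + 2) (E.map dl) ((H75.TwoArm.BB M \ (E ∪ W)).map dl) (K.image tr) (dc ct) := by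
  classical
  have hsub : ∀ A ⊆ H75.TwoArm.BB M, A.map dl ⊆ H75.TwoArm.BB (M + 2 - 1) := by
    intro A hA l hl
    rw [mem_map] at hl
    obtain ⟨e, he, rfl⟩ := hl
    have := mem_BB'.1 (hA he)
    rw [mem_BB', dl_apply]
    simp only
    omega
  have hM1 : H75.TwoArm.BB (M - 1) ⊆ H75.TwoArm.BB M := by
    intro l hl
    rw [mem_BB'] at hl ⊢
    omega
  have hctE : lab ct ∈ E := h.star h.tipB
  refine ⟨hsub _ (h.hE.trans hM1), hsub _ sdiff_subset, ?_, ?_, ?_, ?_, ?_, ?_, ?_, ?_⟩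
  · rw [disjoint_left]
    intro l hl hl'
    rw [mem_map] at hl
    obtain ⟨e, he, rfl⟩ := hl
    rw [mem_map' dl, mem_sdiff, mem_union] at hl'
    exact hl'.2 (Or.inl he)
  · rw [← starf_dl]
    exact map_subset_map.2 h.star
  · intro u hu v hv
    rw [mem_image] at hu hv
    obtain ⟨f, hf, rfl⟩ := hu
    obtain ⟨g, hg, rfl⟩ := hv
    exact h.conn f hf g hg
  · rw [opc_dc, vx_dc]
    exact mem_image_of_mem _ h.tip
  · rw [vx_dc]
    intro h1
    rw [mem_image] at h1
    obtain ⟨f, hf, hff⟩ := h1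
    exact h.tipo ((tr_inj hff) ▸ hf)
  · rw [plab_dc]
    exact fun h1 => h.tipp (mem_dl_starf.1 h1)
  · intro w hw
    rw [mem_map] at hw
    obtain ⟨l, hl, rfl⟩ := hw
    rw [mem_sdiff, mem_union, not_or] at hl
    have hlo : ((dl l).1 + (dl l).2) % 2 = 1 := by
      have := mem_BB'.1 hl.1
      rw [dl_apply]
      simp only
      omega
    have h3 := PivAux.eu_ev hlo
    set g := tr (eu (dl l)) with hg
    set g' := tr (ev (dl l)) with hg'
    have hl' : lbf g g' = l := by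
      apply dl.injective
      rw [dl_lbf, hg, hg', tr_tr, tr_tr]
      exact h3.2
    have h4 : IsUnit4 (g' - g) := by
      rw [hg, hg', unit_tr]
      exact h3.1
    have h5 := h.free g g' h4 (by rw [hl']; exact hl.1) (by rw [hl']; exact hl.2.1)
      (by rw [hl']; exact hl.2.2)
    rw [vx_dc]
    have h6 := (co_dl (B := H75.TwoArm.BB M) (A := E ∪ W)).2 h5.symm
    rw [hg, tr_tr] at h6
    exact h6
  · -- free
    have hin : ∀ l ∈ E ∪ W, ∀ u v : ℤ × ℤ, IsUnit4 (v - u) → u + v = l →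
        inB (-(M - 1)) (M - 1) (-(M - 1)) (M - 1) u := by
      intro l hl u v h1 h2
      have h3 : l ∈ H75.TwoArm.BB (M - 1) := (union_subset h.hE h.hW) hl
      rw [mem_BB', ← h2] at h3
      have h4 := unit_cases h1
      simp only [Prod.fst_add, Prod.snd_add] at h3
      unfold inB
      omega
    have hstart : inB (-(M - 1)) (M - 1) (-(M - 1)) (M - 1) (vx ct) := by
      have h3 := PivAux.eu_ev (H69.Q1.odd_lab ct)
      rcases ends_lab ct with ⟨h1, -⟩ | ⟨h1, -⟩
      · rw [h1]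
        exact hin _ (mem_union_left _ hctE) _ _ h3.1 h3.2
      · rw [h1]
        have h5 : IsUnit4 (eu (lab ct) - ev (lab ct)) := by
          have := isUnit4_neg h3.1
          rwa [neg_sub] at this
        exact hin _ (mem_union_left _ hctE) _ _ h5 (by rw [add_comm]; exact h3.2)
    have key : ∀ g, Co (du (H75.TwoArm.BB (M + 2)) ((H75.TwoArm.BB M \ (E ∪ W)).map dl))
        (fi (dc ct)) g → ∃ u, g = tr u + (1, 1) ∧ inB (-(M - 1)) (M - 1) (-(M - 1)) (M - 1) u := by
      intro g hg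
      induction hg with
      | refl => exact ⟨vx ct, fi_dc ct, hstart⟩
      | @tail b c _ hbc ih =>
        obtain ⟨u, rfl, hu⟩ := ih
        refine ⟨tr (c - (1, 1)), by rw [tr_tr]; simp, ?_⟩
        set u' := tr (c - (1, 1)) with hu'
        have hc : c = tr u' + (1, 1) := by rw [hu', tr_tr]; simp
        rw [hc, ad_du, unit_tr1, lbf_tr1, mem_map' dl, mem_sdiff] at hbc
        obtain ⟨h1, -, h2⟩ := hbc
        have h3 : u + u' ∈ H75.TwoArm.BB M := by
          rw [mem_BB']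
          have h4 := unit_cases h1
          unfold inB at hu
          simp only [Prod.fst_add, Prod.snd_add]
          omega
        have h4 : u + u' ∈ E ∪ W := by
          by_contra h5
          exact h2 ⟨h3, h5⟩
        have h5 : IsUnit4 (u - u') := by
          have := isUnit4_neg h1
          rwa [neg_sub] at this
        exact hin _ h4 u' u h5 (add_comm _ _)
    intro g g' hg h1 h2 h3
    obtain ⟨u, rfl, hu⟩ := key g hg
    set u' := tr (g' - (1, 1)) with hu'
    have hc : g' = tr u' + (1, 1) := by rw [hu', tr_tr]; simp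
    rw [hc, lbf_tr1, mem_map' dl] at h2 h3
    rw [hc, unit_tr1] at h1
    have h4 : u + u' ∈ H75.TwoArm.BB M := by
      rw [mem_BB']
      have h4 := unit_cases h1
      unfold inB at hu
      simp only [Prod.fst_add, Prod.snd_add]
      omega
    have h5 : u + u' ∈ W := by
      by_contra h5
      rw [mem_sdiff, mem_union] at h3
      exact h3 ⟨h4, fun h6 => h6.elim h2 h5⟩
    have h6 : Co W u (vx ct) := by
      rcases H69.Q1.ends_of_add h1 rfl with ⟨h7, -⟩ | ⟨h7, h8⟩
      · rw [h7]; exact h.wired _ h5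
      · refine Co.trans (Relation.ReflTransGen.single ⟨h1, h5⟩) ?_
        rw [h8]; exact h.wired _ h5
    rw [fi_dc]
    refine co_dl2 (A := W) ?_ h6.symm
    intro l hl
    have h7 := mem_BB'.1 (h.hW hl)
    refine ⟨?_, ?_⟩
    · rw [mem_BB', dl_apply]
      simp only
      omega
    · rw [mem_union, mem_map' dl, mem_map' dl, mem_sdiff, mem_union]
      rintro (h8 | h8)
      · exact disjoint_left.1 h.disj h8 hl
      · exact h8.2 (Or.inr hl)

/-- **Filling, faces.** -/
theorem KD0.filled (h : KD0 M E W K ct) : KD M E W (fillf M K) ct := by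
  have hd := h.dual.filled
  have hi : (fillf M K).image tr = fill (M + 2) (K.image tr) := image_tr_tr _
  refine ⟨h.hE, h.hW, h.disj, ?_, ?_, ?_, ?_, ?_, h.wired, h.free, ?_⟩
  · have h1 := hd.star
    rw [← hi, ← starf_dl] at h1
    exact map_subset_map.1 h1
  · intro u hu v hv
    rw [hi]
    exact hd.conn _ (mem_fillf.1 hu) _ (mem_fillf.1 hv)
  · rw [mem_fillf]
    have h1 := hd.tip
    rw [opc_dc, vx_dc] at h1
    exact h1
  · rw [mem_fillf]
    have h1 := hd.tipo
    rw [vx_dc] at h1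
    exact h1
  · intro h1
    apply hd.tipp
    rw [plab_dc, ← hi]
    exact mem_dl_starf.2 h1
  · rw [hi]
    exact hd.ring

lemma KD0.sub_fill (h : KD0 M E W K ct) : K ⊆ fillf M K := by
  intro g hg
  rw [mem_fillf]
  exact h.dual.sub_fill (mem_image_of_mem _ hg)

/-- a face joined to the face of the tip by closed labels off `starf K` is outer -/
lemma KD0.out_of_co (h : KD0 M E W K ct) {η : Finset (ℤ × ℤ)} (hη : starf K ⊆ η) {g : ℤ × ℤ}
    (hg : Co (du (H75.TwoArm.BB M) η) g (fi ct)) : Out (M + 2) (K.image tr) (tr g) := by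
  refine h.dual.out_of_co (η := (H75.TwoArm.BB M \ η).map dl) ?_ ?_ ?_
  · rw [← starf_dl, disjoint_left]
    intro l hl hl'
    rw [mem_map] at hl
    obtain ⟨e, he, rfl⟩ := hl
    rw [mem_map' dl] at hl'
    exact (mem_sdiff.1 he).2 (hη hl')
  · intro l hl
    rw [mem_map] at hl
    obtain ⟨e, he, rfl⟩ := hl
    have := mem_BB'.1 (mem_sdiff.1 he).1
    rw [mem_BB', dl_apply]
    simp only
    omega
  · rw [vx_dc]
    exact co_dl.2 hg

/-- the labels of `C` are off the star of the filled set of faces -/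
lemma KD0.closes (h : KD0 M E W K ct) {C : Finset (ℤ × ℤ)} (hC : C ⊆ E \ starf K)
    (hT : ∀ g g', IsUnit4 (g' - g) → lbf g g' ∈ C →
      Co (du (H75.TwoArm.BB M) ((E ∪ W) \ C)) g (fi ct)) :
    C ⊆ E \ starf (fillf M K) := by
  intro l hl
  have h1 := mem_sdiff.1 (hC hl)
  refine mem_sdiff.2 ⟨h1.1, fun h2 => ?_⟩
  have ho : (l.1 + l.2) % 2 = 1 := (mem_BB'.1 (h.hE h1.1)).2.2
  have hod : ((dl l).1 + (dl l).2) % 2 = 1 := by rw [dl_apply]; simp only; omega
  have h3 : dl l ∈ Pool.Agent.Q1.M3.star (fill (M + 2) (K.image tr)) := by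
    have h4 := mem_dl_starf.2 h2
    have hi : (fillf M K).image tr = fill (M + 2) (K.image tr) := image_tr_tr _
    rwa [hi] at h4
  have hsub : starf K ⊆ (E ∪ W) \ C := fun e he =>
    mem_sdiff.2 ⟨mem_union_left _ (h.star he), fun h4 => (mem_sdiff.1 (hC h4)).2 he⟩
  have h4 := PivAux.eu_ev hod
  have key : ∀ v, (v = eu (dl l) ∨ v = ev (dl l)) → v ∉ fill (M + 2) (K.image tr) := by
    intro v hv h5
    refine (mem_fill.1 h5).2 ?_
    rw [← tr_tr v]
    refine h.out_of_co hsub ?_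
    have e1 : lbf (tr (eu (dl l))) (tr (ev (dl l))) = l := by
      apply dl.injective
      rw [dl_lbf, tr_tr, tr_tr]
      exact h4.2
    have e2 : IsUnit4 (tr (ev (dl l)) - tr (eu (dl l))) := by rw [unit_tr]; exact h4.1
    rcases hv with rfl | rfl
    · exact hT _ _ e2 (by rw [e1]; exact hl)
    · exact hT _ (tr (eu (dl l))) (unit4_neg e2) (by rw [lbf_comm, e1]; exact hl)
  rw [mem_star_iff hod] at h3
  rcases h3 with h5 | h5
  · exact key _ (Or.inl rfl) h5
  · exact key _ (Or.inr rfl) h5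

lemma fillf_far {p : ℤ × ℤ} {m : ℤ}
    (hp : ∀ u ∈ K, m + 1 ≤ |u.1 - p.1| ∨ m + 1 ≤ |u.2 - p.2|) {g : ℤ × ℤ}
    (hg : Out (M + 2) (K.image tr) (tr g)) (hg1 : |g.1 - p.1| ≤ m) (hg2 : |g.2 - p.2| ≤ m) :
    ∀ u ∈ fillf M K, m + 1 ≤ |u.1 - p.1| ∨ m + 1 ≤ |u.2 - p.2| := by
  intro u hu
  rw [mem_fillf] at hu
  have := fill_far (p := tr p) (m := m) (K := K.image tr) ?_ hg ?_ ?_ _ hu
  · unfold tr at this; simp only at this; tauto
  · intro w hw
    have := hp _ (mem_image_tr.1 hw)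
    unfold tr at this ⊢; simp only at this ⊢; tauto
  · unfold tr; simp only; exact hg2
  · unfold tr; simp only; exact hg1

/-- **Rough Dobrushin environments, faces.** -/
theorem KD0.of_dobr (h : Pool.Agent.Q1.M6c.Dobr E W ct) (hE : E ⊆ H75.TwoArm.BB (M - 1))
    (hW : W ⊆ H75.TwoArm.BB (M - 1)) (hst : starf K ⊆ E)
    (hc : ∀ u ∈ K, ∀ v ∈ K, Co (kap (K.image tr)) (tr u) (tr v))
    (ht : fi (opc ct) ∈ K) (ht' : fi ct ∉ K) (hp : plab ct ∉ starf K) : KD0 M E W K ct := by
  have hlct : lab ct ∈ E := by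
    apply hst
    rw [← mem_dl_starf, ← lab_dc, lab_star]
    right
    rw [opc_dc, vx_dc]
    exact mem_image_of_mem _ ht
  have hM : 1 ≤ M := by
    have := mem_BB'.1 (hE hlct)
    omega
  have hEW : E ∪ W ⊆ H75.TwoArm.BB (M - 1) := union_subset hE hW
  refine ⟨hE, hW, h.disj, hst, hc, ht, ht', hp, ?_, ?_⟩
  · intro w hw
    have ho := h.oddW w hw
    have h1 := Pool.Agent.H75.Four.opc_zu ho
    have h2 := h.wco (zu w) (by rw [h1.2.2.1]; exact hw)
    rw [h1.2.2.2.2.1] at h2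
    exact h2.symm
  · intro g g' h2 h1 h3 h4
    obtain ⟨z, hz, hz'⟩ := exists_corner h2
    have h5 := h.lco z (by rw [hz']; exact h3) (by rw [hz']; exact h4)
    rw [hz] at h5
    have h6 := dco_clamp hM hEW h5
    have h7 : Co (du (H75.TwoArm.BB M) (E ∪ W)) (cla M (fi ct)) (fi ct) := by
      refine cla_face hEW (fi_nxC ct).1 ?_
      rw [lbf_nxC]
      exact BB_sub (by omega) (hE hlct)
    exact (h7.symm.trans h6).trans (cla_face hEW h2 h1)

end

end Pool.Agent.H23.Q1
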