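import Mathlib
import Pool.Agent.H23.Q1.FillDual

set_option autoImplicit false
open Finset

/-! The tube of a chain of diamonds and the corridor to the tip. Everything is written with doubled
centres `c`, so that it applies to vertices (`c = 2u`) and to faces (`c = 2u + (1,1)`). -/

namespace Pool.Agent.H23.Q1

open Pool.Agent.H75.Perc hiding dl
open Pool.Agent.H75.TwoArm Pool.Agent.H75.Four
open Pool.Agent.H77.Q1 hiding ad_du
open Pool.Agent.H75.TwoArm.StrandAux hiding vx_nxC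
open Pool.Agent.Q1.M3 (star kap mem_star_iff mem_kap_iff)
open Pool.Agent.Q1 (DCo)

/-- doubled `L1` distance of `v` to the doubled centre `c` -/
def nd (c v : ℤ × ℤ) : ℤ := |2 * v.1 - c.1| + |2 * v.2 - c.2|

/-- ball with doubled centre `c` and doubled radius `R` -/
noncomputable def Bl (c : ℤ × ℤ) (R : ℤ) : Finset (ℤ × ℤ) :=
  ((Icc ((c.1 - R) / 2) ((c.1 + R) / 2)) ×ˢ (Icc ((c.2 - R) / 2) ((c.2 + R) / 2))).filter
    (fun v => nd c v ≤ R)

lemma mem_Bl {c v : ℤ × ℤ} {R : ℤ} : v ∈ Bl c R ↔ nd c v ≤ R := by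
  unfold Bl
  rw [mem_filter, mem_product, mem_Icc, mem_Icc]
  constructor
  · exact fun h => h.2
  · intro h
    refine ⟨?_, h⟩
    unfold nd at h
    simp only [abs_eq_max_neg] at h
    omega

/-- the centre -/
def ctr (c : ℤ × ℤ) : ℤ × ℤ := (c.1 / 2, c.2 / 2)

lemma nd_ctr {c v : ℤ × ℤ} (h : (c.1 + c.2) % 2 = 0) : nd c (ctr c) ≤ nd c v + 1 ∨ nd c (ctr c) ≤ 2 := by
  right
  unfold nd ctr
  simp only [abs_eq_max_neg]
  omega

/-- the axis parallel segment from `x0` to the axis of `c` -/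
noncomputable def Sg (c x0 : ℤ × ℤ) : Finset (ℤ × ℤ) :=
  ((Icc (x0.1 - nd c x0) (x0.1 + nd c x0)) ×ˢ (Icc (x0.2 - nd c x0) (x0.2 + nd c x0))).filter
    (fun v => (|2 * x0.2 - c.2| ≤ |2 * x0.1 - c.1| ∧ v.2 = x0.2 ∧
        |2 * v.1 - c.1| + 2 * |v.1 - x0.1| ≤ |2 * x0.1 - c.1|) ∨
      (|2 * x0.1 - c.1| < |2 * x0.2 - c.2| ∧ v.1 = x0.1 ∧
        |2 * v.2 - c.2| + 2 * |v.2 - x0.2| ≤ |2 * x0.2 - c.2|))

lemma mem_Sg {c x0 v : ℤ × ℤ} : v ∈ Sg c x0 ↔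
    (|2 * x0.2 - c.2| ≤ |2 * x0.1 - c.1| ∧ v.2 = x0.2 ∧
        |2 * v.1 - c.1| + 2 * |v.1 - x0.1| ≤ |2 * x0.1 - c.1|) ∨
      (|2 * x0.1 - c.1| < |2 * x0.2 - c.2| ∧ v.1 = x0.1 ∧
        |2 * v.2 - c.2| + 2 * |v.2 - x0.2| ≤ |2 * x0.2 - c.2|) := by
  unfold Sg
  rw [mem_filter, mem_product, mem_Icc, mem_Icc]
  constructor
  · exact fun h => h.2
  · intro h
    refine ⟨?_, h⟩
    unfold nd
    simp only [abs_eq_max_neg] at h ⊢
    omega

lemma self_mem_Sg (c x0 : ℤ × ℤ) : x0 ∈ Sg c x0 := by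
  rw [mem_Sg]
  rcases le_or_gt |2 * x0.2 - c.2| |2 * x0.1 - c.1| with h | h
  · exact Or.inl ⟨h, rfl, by simp⟩
  · exact Or.inr ⟨h, rfl, by simp⟩

lemma nd_Sg {c x0 v : ℤ × ℤ} (h : v ∈ Sg c x0) :
    nd c v + 2 * (|v.1 - x0.1| + |v.2 - x0.2|) ≤ nd c x0 := by
  rw [mem_Sg] at h
  unfold nd
  simp only [abs_eq_max_neg] at h ⊢
  omega

/-! ### walks -/

lemma kap_step {K : Finset (ℤ × ℤ)} {a b : ℤ × ℤ} (h : IsUnit4 (b - a)) (ha : a ∈ K) (hb : b ∈ K) :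
    Co (kap K) a b := by
  refine Relation.ReflTransGen.single ⟨h, ?_⟩
  have ho : ((a + b).1 + (a + b).2) % 2 = 1 := by
    have := unit_cases h
    simp only [Prod.fst_add, Prod.snd_add]
    omega
  rw [mem_kap_iff ho]
  rcases H69.Q1.ends_of_add h rfl with ⟨h1, h2⟩ | ⟨h1, h2⟩
  · rw [← h1, ← h2]; exact ⟨ha, hb⟩
  · rw [← h1, ← h2]; exact ⟨hb, ha⟩

lemma kap_hor {K : Finset (ℤ × ℤ)} {a b y : ℤ} (hab : a ≤ b)
    (h : ∀ t, a ≤ t → t ≤ b → (t, y) ∈ K) : Co (kap K) (a, y) (b, y) := by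
  induction b, hab using Int.leInduction with
  | base => exact Co.refl _ _
  | succ n hn ih =>
    exact (ih fun t h1 h2 => h t h1 (by omega)).trans (kap_step (Or.inl (Prod.ext (by simp) (by simp)))
      (h n (by omega) (by omega)) (h (n + 1) (by omega) le_rfl))

lemma kap_ver {K : Finset (ℤ × ℤ)} {a b x : ℤ} (hab : a ≤ b)
    (h : ∀ t, a ≤ t → t ≤ b → (x, t) ∈ K) : Co (kap K) (x, a) (x, b) := by
  induction b, hab using Int.leInduction with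
  | base => exact Co.refl _ _
  | succ n hn ih =>
    exact (ih fun t h1 h2 => h t h1 (by omega)).trans
      (kap_step (Or.inr (Or.inl (Prod.ext (by simp) (by simp))))
      (h n (by omega) (by omega)) (h (n + 1) (by omega) le_rfl))

/-- horizontal walk, any direction -/
lemma kap_hor' {K : Finset (ℤ × ℤ)} {a b y : ℤ}
    (h : ∀ t, min a b ≤ t → t ≤ max a b → (t, y) ∈ K) : Co (kap K) (a, y) (b, y) := by
  rcases le_total a b with h1 | h1
  · exact kap_hor h1 fun t h2 h3 => h t (by omega) (by omega)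
  · exact (kap_hor h1 fun t h2 h3 => h t (by omega) (by omega)).symm

lemma kap_ver' {K : Finset (ℤ × ℤ)} {a b x : ℤ}
    (h : ∀ t, min a b ≤ t → t ≤ max a b → (x, t) ∈ K) : Co (kap K) (x, a) (x, b) := by
  rcases le_total a b with h1 | h1
  · exact kap_ver h1 fun t h2 h3 => h t (by omega) (by omega)
  · exact (kap_ver h1 fun t h2 h3 => h t (by omega) (by omega)).symm

/-- every vertex of a ball is joined to its centre -/
lemma bl_ctr {K : Finset (ℤ × ℤ)} {c v : ℤ × ℤ} {R : ℤ} (hK : Bl c R ⊆ K) (hv : v ∈ Bl c R) :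
    Co (kap K) v (ctr c) := by
  obtain ⟨x, y⟩ := v
  rw [mem_Bl] at hv
  have h1 : Co (kap K) (x, y) ((ctr c).1, y) := by
    refine kap_hor' fun t h2 h3 => hK (mem_Bl.2 ?_)
    unfold nd ctr at *
    simp only [abs_eq_max_neg] at *
    omega
  have h2 : Co (kap K) ((ctr c).1, y) ((ctr c).1, (ctr c).2) := by
    refine kap_ver' fun t h2 h3 => hK (mem_Bl.2 ?_)
    unfold nd ctr at *
    simp only [abs_eq_max_neg] at *
    omega
  exact h1.trans h2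

/-- every vertex of the segment is joined to `x0` -/
lemma sg_x0 {K : Finset (ℤ × ℤ)} {c x0 v : ℤ × ℤ} (hK : Sg c x0 ⊆ K) (hv : v ∈ Sg c x0) :
    Co (kap K) v x0 := by
  obtain ⟨x, y⟩ := v
  obtain ⟨a, b⟩ := x0
  have hv' := mem_Sg.1 hv
  rcases hv' with ⟨h1, h2, h3⟩ | ⟨h1, h2, h3⟩
  · simp only at h2
    subst h2
    refine kap_hor' fun t h4 h5 => hK (mem_Sg.2 (Or.inl ⟨h1, rfl, ?_⟩))
    simp only [abs_eq_max_neg] at *
    omega
  · simp only at h2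
    subst h2
    refine kap_ver' fun t h4 h5 => hK (mem_Sg.2 (Or.inr ⟨h1, rfl, ?_⟩))
    simp only [abs_eq_max_neg] at *
    omega

/-- the segment meets the ball -/
lemma sg_bl {c x0 : ℤ × ℤ} {R : ℤ} (hR : nd c x0 ≤ 2 * R - 2) : ∃ v, v ∈ Sg c x0 ∧ v ∈ Bl c R := by
  by_cases h : |2 * x0.2 - c.2| ≤ |2 * x0.1 - c.1|
  · by_cases h1 : c.1 ≤ 2 * x0.1
    · refine ⟨((c.1 + 1) / 2, x0.2), mem_Sg.2 (Or.inl ⟨h, rfl, ?_⟩), mem_Bl.2 ?_⟩
      · simp only [abs_eq_max_neg] at *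
        omega
      · unfold nd at *
        simp only [abs_eq_max_neg] at *
        omega
    · refine ⟨(c.1 / 2, x0.2), mem_Sg.2 (Or.inl ⟨h, rfl, ?_⟩), mem_Bl.2 ?_⟩
      · simp only [abs_eq_max_neg] at *
        omega
      · unfold nd at *
        simp only [abs_eq_max_neg] at *
        omega
  · rw [not_le] at h
    by_cases h1 : c.2 ≤ 2 * x0.2
    · refine ⟨(x0.1, (c.2 + 1) / 2), mem_Sg.2 (Or.inr ⟨h, rfl, ?_⟩), mem_Bl.2 ?_⟩
      · simp only [abs_eq_max_neg] at *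
        omega
      · unfold nd at *
        simp only [abs_eq_max_neg] at *
        omega
    · refine ⟨(x0.1, c.2 / 2), mem_Sg.2 (Or.inr ⟨h, rfl, ?_⟩), mem_Bl.2 ?_⟩
      · simp only [abs_eq_max_neg] at *
        omega
      · unfold nd at *
        simp only [abs_eq_max_neg] at *
        omega

/-! ### the tube with its corridor -/

/-- the balls around the centres and the segment from `x0` to the axis of `c i` -/
noncomputable def Cor (c : ℕ → ℤ × ℤ) (k i : ℕ) (R : ℤ) (x0 : ℤ × ℤ) : Finset (ℤ × ℤ) :=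
  (range (k + 1)).biUnion (fun j => Bl (c j) R) ∪ Sg (c i) x0

section
variable {c : ℕ → ℤ × ℤ} {k i : ℕ} {R : ℤ} {x0 : ℤ × ℤ}

lemma bl_sub_cor {j : ℕ} (hj : j ≤ k) : Bl (c j) R ⊆ Cor c k i R x0 := by
  intro v hv
  unfold Cor
  exact mem_union_left _ (mem_biUnion.2 ⟨j, mem_range.2 (by omega), hv⟩)

lemma sg_sub_cor : Sg (c i) x0 ⊆ Cor c k i R x0 := subset_union_right

lemma x0_mem_cor : x0 ∈ Cor c k i R x0 := sg_sub_cor (self_mem_Sg _ _)

lemma cor_cases {v : ℤ × ℤ} (h : v ∈ Cor c k i R x0) : (∃ j ≤ k, nd (c j) v ≤ R) ∨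
    nd (c i) v + 2 * (|v.1 - x0.1| + |v.2 - x0.2|) ≤ nd (c i) x0 := by
  unfold Cor at h
  rcases mem_union.1 h with h1 | h1
  · obtain ⟨j, hj, hv⟩ := mem_biUnion.1 h1
    exact Or.inl ⟨j, by rw [mem_range] at hj; omega, mem_Bl.1 hv⟩
  · exact Or.inr (nd_Sg h1)

theorem cor_conn (hi : i ≤ k) (hc : ∀ j < k, nd (c j) (ctr (c (j + 1))) ≤ R)
    (hx : nd (c i) x0 ≤ 2 * R - 2) :
    ∀ u ∈ Cor c k i R x0, ∀ v ∈ Cor c k i R x0, Co (kap (Cor c k i R x0)) u v := by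
  have h1 : ∀ j ≤ k, Co (kap (Cor c k i R x0)) (ctr (c j)) (ctr (c 0)) := by
    intro j
    induction j with
    | zero => intro _; exact Co.refl _ _
    | succ j ih =>
      intro hj
      refine Co.trans ?_ (ih (by omega))
      exact bl_ctr (bl_sub_cor (j := j) (by omega)) (mem_Bl.2 (hc j (by omega)))
  have h2 : Co (kap (Cor c k i R x0)) x0 (ctr (c 0)) := by
    obtain ⟨v, hv, hv'⟩ := sg_bl (R := R) hx
    exact ((sg_x0 sg_sub_cor hv).symm.trans (bl_ctr (bl_sub_cor hi) hv')).trans (h1 i hi)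
  have h3 : ∀ u ∈ Cor c k i R x0, Co (kap (Cor c k i R x0)) u (ctr (c 0)) := by
    intro u hu
    have hu' := hu
    unfold Cor at hu'
    rcases mem_union.1 hu' with h4 | h4
    · obtain ⟨j, hj, hv⟩ := mem_biUnion.1 h4
      rw [mem_range] at hj
      exact (bl_ctr (bl_sub_cor (by omega)) hv).trans (h1 j (by omega))
    · exact (sg_x0 sg_sub_cor h4).trans h2
  intro u hu v hv
  exact (h3 u hu).trans (h3 v hv).symm

end

/-- transposed connections -/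
lemma co_kap_tr {K : Finset (ℤ × ℤ)} {u v : ℤ × ℤ} (h : Co (kap K) u v) :
    Co (kap (K.image tr)) (tr u) (tr v) := by
  induction h with
  | refl => exact Co.refl _ _
  | @tail b c _ hbc ih =>
    have ho : ((b + c).1 + (b + c).2) % 2 = 1 := by
      have := unit_cases hbc.1
      simp only [Prod.fst_add, Prod.snd_add]
      omega
    have h1 := (mem_kap_iff ho).1 hbc.2
    refine ih.trans (kap_step (unit_tr.2 hbc.1) ?_ ?_)
    · rcases H69.Q1.ends_of_add hbc.1 rfl with ⟨h2, h3⟩ | ⟨h2, h3⟩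
      · rw [h2]; exact mem_image_of_mem _ h1.1
      · rw [h2]; exact mem_image_of_mem _ h1.2
    · rcases H69.Q1.ends_of_add hbc.1 rfl with ⟨h2, h3⟩ | ⟨h2, h3⟩
      · rw [h3]; exact mem_image_of_mem _ h1.2
      · rw [h3]; exact mem_image_of_mem _ h1.1

/-! ### labels -/

/-- `L1` norm of the label `l` seen from the vertex `u` -/
def nl (u l : ℤ × ℤ) : ℤ := |l.1 - 2 * u.1| + |l.2 - 2 * u.2|

/-- doubled vertex -/
def d0 (u : ℤ × ℤ) : ℤ × ℤ := (2 * u.1, 2 * u.2)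

/-- doubled vertex seen from the faces -/
def d1 (u : ℤ × ℤ) : ℤ × ℤ := (2 * u.1 + 1, 2 * u.2 + 1)

lemma nl_end {u l v : ℤ × ℤ} (hl : (l.1 + l.2) % 2 = 1) (hv : v = eu l ∨ v = ev l) :
    nl u l ≤ nd (d0 u) v + 1 ∧ nd (d0 u) v ≤ nl u l + 1 := by
  unfold nl nd d0
  unfold eu ev at hv
  simp only [Prod.ext_iff] at hv
  simp only [abs_eq_max_neg]
  omega

lemma mem_star_end {K : Finset (ℤ × ℤ)} {l : ℤ × ℤ} (h : l ∈ Pool.Agent.Q1.M3.star K) :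
    (l.1 + l.2) % 2 = 1 ∧ ∃ v ∈ K, v = eu l ∨ v = ev l := by
  have ho := Pool.Agent.Q1.M3.odd_star h
  refine ⟨ho, ?_⟩
  rw [mem_star_iff ho] at h
  rcases h with h1 | h1
  · exact ⟨_, h1, Or.inl rfl⟩
  · exact ⟨_, h1, Or.inr rfl⟩

lemma mem_starf {K : Finset (ℤ × ℤ)} {l : ℤ × ℤ} : l ∈ starf K ↔ ∃ f ∈ K,
    l = (2 * f.1 - 2, 2 * f.2 - 1) ∨ l = (2 * f.1, 2 * f.2 - 1) ∨ l = (2 * f.1 - 1, 2 * f.2 - 2) ∨
      l = (2 * f.1 - 1, 2 * f.2) := by
  unfold starf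
  rw [mem_biUnion]
  simp only [mem_insert, mem_singleton]

lemma nl_side {u l f : ℤ × ℤ} (h : l = (2 * f.1 - 2, 2 * f.2 - 1) ∨ l = (2 * f.1, 2 * f.2 - 1) ∨
    l = (2 * f.1 - 1, 2 * f.2 - 2) ∨ l = (2 * f.1 - 1, 2 * f.2)) :
    nl u l ≤ nd (d1 u) f + 1 ∧ nd (d1 u) f ≤ nl u l + 1 ∧ (l.1 + l.2) % 2 = 1 := by
  unfold nl nd d1
  simp only [Prod.ext_iff] at h
  simp only [abs_eq_max_neg]
  omega

/-- the two labels of a corner and its vertex, its face -/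
lemma corner_nd (u z : ℤ × ℤ) :
    (nl u (plab z) ≤ nd (d0 u) (vx z) + 1) ∧ (nl u (plab z) ≤ nd (d1 u) (fi z) + 1) ∧
    (nl u (lab z) + 1 < nl u (plab z) → nd (d0 u) (vx (opc z)) + 1 ≤ nl u (lab z)) ∧
    (nl u (lab z) + 1 < nl u (plab z) → (lab z).1 ≠ 2 * u.1 → (lab z).2 ≠ 2 * u.2 →
      nd (d1 u) (fi (opc z)) + 1 ≤ nl u (lab z)) := by
  obtain ⟨a, b⟩ := z
  unfold nl nd d0 d1 plab lab vx fi opc
  simp only
  split_ifs <;> simp only [abs_eq_max_neg] <;> omega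

/-! ### the tip next to a union of diamonds -/

section
variable {E W P : Finset (ℤ × ℤ)} {u : ℕ → ℤ × ℤ} {k i : ℕ} {ρ R : ℤ} {ct : ℤ × ℤ}

/-- The stopping region `P` is the union of the diamonds of radius `ρ` around `u 0, …, u k`; the tip
label is in the diamond number `i` and not extreme, the label before the tip is not in `P`. -/
structure TipIn (P : Finset (ℤ × ℤ)) (u : ℕ → ℤ × ℤ) (k i : ℕ) (ρ : ℤ) (ct : ℤ × ℤ) : Prop where
  mem : ∀ l, l ∈ P ↔ (l.1 + l.2) % 2 = 1 ∧ ∃ j ≤ k, nl (u j) l ≤ 2 * ρ - 1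
  hi : i ≤ k
  tip : nl (u i) (lab ct) ≤ 2 * ρ - 1
  ex1 : (lab ct).1 ≠ 2 * (u i).1
  ex2 : (lab ct).2 ≠ 2 * (u i).2
  prev : plab ct ∉ P

/-- the set of vertices -/
noncomputable def Kv (u : ℕ → ℤ × ℤ) (k i : ℕ) (R : ℤ) (ct : ℤ × ℤ) : Finset (ℤ × ℤ) :=
  Cor (fun j => d0 (u j)) k i R (vx (opc ct))

/-- the set of faces -/
noncomputable def Kf (u : ℕ → ℤ × ℤ) (k i : ℕ) (R : ℤ) (ct : ℤ × ℤ) : Finset (ℤ × ℤ) :=
  Cor (fun j => d1 (u j)) k i R (fi (opc ct))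

lemma TipIn.prev' (h : TipIn P u k i ρ ct) : ∀ j ≤ k, 2 * ρ + 1 ≤ nl (u j) (plab ct) := by
  intro j hj
  have ho := (plab_end ct).2
  have h1 : ¬ nl (u j) (plab ct) ≤ 2 * ρ - 1 := fun h2 => h.prev ((h.mem _).2 ⟨ho, j, hj, h2⟩)
  have h2 : nl (u j) (plab ct) % 2 = 1 := by
    unfold nl
    simp only [abs_eq_max_neg]
    omega
  omega

lemma TipIn.gap (h : TipIn P u k i ρ ct) : nl (u i) (lab ct) + 1 < nl (u i) (plab ct) := by
  have h1 := h.tip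
  have h2 := h.prev' i h.hi
  omega

lemma TipIn.x0 (h : TipIn P u k i ρ ct) : nd (d0 (u i)) (vx (opc ct)) ≤ 2 * ρ - 2 := by
  have h1 := (corner_nd (u i) ct).2.2.1 h.gap
  have h2 := h.tip
  omega

lemma TipIn.f1 (h : TipIn P u k i ρ ct) : nd (d1 (u i)) (fi (opc ct)) ≤ 2 * ρ - 2 := by
  have h1 := (corner_nd (u i) ct).2.2.2 h.gap h.ex1 h.ex2
  have h2 := h.tip
  omega

lemma TipIn.kv_nd (h : TipIn P u k i ρ ct) (hR : R ≤ 2 * ρ - 2) {v : ℤ × ℤ} (hv : v ∈ Kv u k i R ct) :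
    ∃ j ≤ k, nd (d0 (u j)) v ≤ 2 * ρ - 2 := by
  rcases cor_cases hv with ⟨j, hj, h1⟩ | h1
  · exact ⟨j, hj, by omega⟩
  · have h2 := h.x0
    refine ⟨i, h.hi, ?_⟩
    simp only [abs_eq_max_neg] at h1
    omega

lemma TipIn.kf_nd (h : TipIn P u k i ρ ct) (hR : R ≤ 2 * ρ - 2) {v : ℤ × ℤ} (hv : v ∈ Kf u k i R ct) :
    ∃ j ≤ k, nd (d1 (u j)) v ≤ 2 * ρ - 2 := by
  rcases cor_cases hv with ⟨j, hj, h1⟩ | h1
  · exact ⟨j, hj, by omega⟩
  · have h2 := h.f1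
    refine ⟨i, h.hi, ?_⟩
    simp only [abs_eq_max_neg] at h1
    omega

lemma TipIn.star_kv (h : TipIn P u k i ρ ct) (hR : R ≤ 2 * ρ - 2) :
    Pool.Agent.Q1.M3.star (Kv u k i R ct) ⊆ P := by
  intro l hl
  obtain ⟨ho, v, hv, hv'⟩ := mem_star_end hl
  obtain ⟨j, hj, h1⟩ := h.kv_nd hR hv
  have h2 := (nl_end (u := u j) ho hv').1
  exact (h.mem l).2 ⟨ho, j, hj, by omega⟩

lemma TipIn.star_kf (h : TipIn P u k i ρ ct) (hR : R ≤ 2 * ρ - 2) :
    starf (Kf u k i R ct) ⊆ P := by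
  intro l hl
  obtain ⟨f, hf, hf'⟩ := mem_starf.1 hl
  obtain ⟨j, hj, h1⟩ := h.kf_nd hR hf
  have h2 := nl_side (u := u j) hf'
  exact (h.mem l).2 ⟨h2.2.2, j, hj, by omega⟩

lemma TipIn.tip_kv (h : TipIn P u k i ρ ct) (hR : R ≤ 2 * ρ - 2) : vx ct ∉ Kv u k i R ct := by
  intro h1
  obtain ⟨j, hj, h2⟩ := h.kv_nd hR h1
  have h3 := (corner_nd (u j) ct).1
  have h4 := h.prev' j hj
  omega

lemma TipIn.tip_kf (h : TipIn P u k i ρ ct) (hR : R ≤ 2 * ρ - 2) : fi ct ∉ Kf u k i R ct := by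
  intro h1
  obtain ⟨j, hj, h2⟩ := h.kf_nd hR h1
  have h3 := (corner_nd (u j) ct).2.1
  have h4 := h.prev' j hj
  omega

lemma ctr_d0 (v : ℤ × ℤ) : ctr (d0 v) = v := by
  unfold ctr d0
  exact Prod.ext (by simp only; omega) (by simp only; omega)

lemma ctr_d1 (v : ℤ × ℤ) : ctr (d1 v) = v := by
  unfold ctr d1
  exact Prod.ext (by simp only; omega) (by simp only; omega)

/-- **The set of vertices for `K3_open`.** -/
theorem TipIn.kt {M : ℤ} (h : TipIn P u k i ρ ct) (hd : Pool.Agent.Q1.M6c.Dobr E W ct)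
    (hE : E ⊆ H75.TwoArm.BB (M - 1)) (hW : W ⊆ H75.TwoArm.BB (M - 1)) (hP : P ⊆ E)
    (hR : R ≤ 2 * ρ - 2) (hR' : ρ ≤ R) (hc : ∀ j < k, nd (d0 (u j)) (u (j + 1)) + 2 ≤ R) :
    KT0 M E W (Kv u k i R ct) ct := by
  refine KT0.of_dobr hd hE hW ((h.star_kv hR).trans hP) ?_ x0_mem_cor (h.tip_kv hR)
    (fun h1 => h.prev (h.star_kv hR h1))
  refine cor_conn h.hi ?_ ?_
  · intro j hj
    rw [ctr_d0]
    have := hc j hj
    omega
  · have := h.x0
    omega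

/-- **The set of faces for `K3_close`.** -/
theorem TipIn.kd {M : ℤ} (h : TipIn P u k i ρ ct) (hd : Pool.Agent.Q1.M6c.Dobr E W ct)
    (hE : E ⊆ H75.TwoArm.BB (M - 1)) (hW : W ⊆ H75.TwoArm.BB (M - 1)) (hP : P ⊆ E)
    (hR : R ≤ 2 * ρ - 2) (hR' : ρ ≤ R) (hc : ∀ j < k, nd (d0 (u j)) (u (j + 1)) + 2 ≤ R) :
    KD0 M E W (Kf u k i R ct) ct := by
  refine KD0.of_dobr hd hE hW ((h.star_kf hR).trans hP) ?_ x0_mem_cor (h.tip_kf hR)
    (fun h1 => h.prev (h.star_kf hR h1))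
  intro a ha b hb
  refine co_kap_tr ?_
  refine cor_conn h.hi ?_ ?_ a ha b hb
  · intro j hj
    rw [ctr_d1]
    have h1 := hc j hj
    unfold nd d0 at h1
    unfold nd d1
    simp only [abs_eq_max_neg] at *
    omega
  · have := h.f1
    omega

/-- Distance of the vertices to the labels outside `P`. -/
lemma TipIn.far_kv (h : TipIn P u k i ρ ct) {v : ℤ × ℤ} (hv : v ∈ Kv u k i R ct) {l : ℤ × ℤ}
    (ho : (l.1 + l.2) % 2 = 1) (hl : l ∉ P) :
    2 * ρ + 1 - R ≤ |l.1 - 2 * v.1| + |l.2 - 2 * v.2| ∨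
    3 + 2 * (|v.1 - (vx (opc ct)).1| + |v.2 - (vx (opc ct)).2|) ≤
      |l.1 - 2 * v.1| + |l.2 - 2 * v.2| := by
  have h0 : ∀ j ≤ k, 2 * ρ + 1 ≤ nl (u j) l := by
    intro j hj
    have h1 : ¬ nl (u j) l ≤ 2 * ρ - 1 := fun h2 => hl ((h.mem _).2 ⟨ho, j, hj, h2⟩)
    have h2 : nl (u j) l % 2 = 1 := by
      unfold nl
      simp only [abs_eq_max_neg]
      omega
    omega
  rcases cor_cases hv with ⟨j, hj, h1⟩ | h1
  · left
    have h2 := h0 j hj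
    unfold nl at h2
    unfold nd d0 at h1
    simp only [abs_eq_max_neg] at *
    omega
  · right
    have h2 := h0 i h.hi
    have h3 := h.x0
    unfold nl at h2
    unfold nd d0 at h1 h3
    simp only [abs_eq_max_neg] at *
    omega

/-- Distance of the faces to the labels outside `P`. -/
lemma TipIn.far_kf (h : TipIn P u k i ρ ct) {v : ℤ × ℤ} (hv : v ∈ Kf u k i R ct) {l : ℤ × ℤ}
    (ho : (l.1 + l.2) % 2 = 1) (hl : l ∉ P) :
    2 * ρ + 1 - R ≤ |l.1 + 1 - 2 * v.1| + |l.2 + 1 - 2 * v.2| ∨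
    3 + 2 * (|v.1 - (fi (opc ct)).1| + |v.2 - (fi (opc ct)).2|) ≤
      |l.1 + 1 - 2 * v.1| + |l.2 + 1 - 2 * v.2| := by
  have h0 : ∀ j ≤ k, 2 * ρ + 1 ≤ nl (u j) l := by
    intro j hj
    have h1 : ¬ nl (u j) l ≤ 2 * ρ - 1 := fun h2 => hl ((h.mem _).2 ⟨ho, j, hj, h2⟩)
    have h2 : nl (u j) l % 2 = 1 := by
      unfold nl
      simp only [abs_eq_max_neg]
      omega
    omega
  rcases cor_cases hv with ⟨j, hj, h1⟩ | h1
  · left
    have h2 := h0 j hj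
    unfold nl at h2
    unfold nd d1 at h1
    simp only [abs_eq_max_neg] at *
    omega
  · right
    have h2 := h0 i h.hi
    have h3 := h.f1
    unfold nl at h2
    unfold nd d1 at h1 h3
    simp only [abs_eq_max_neg] at *
    omega

/-- boxes inside the star of the set of vertices -/
lemma box_kv {j : ℕ} (hj : j ≤ k) {t : ℤ} (ht : 4 * t ≤ R) :
    Bx ((u j).1 - t) ((u j).1 + t) ((u j).2 - t) ((u j).2 + t) ⊆
      Pool.Agent.Q1.M3.star (Kv u k i R ct) := by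
  intro l hl
  rw [mem_Bx] at hl
  rw [mem_star_iff hl.2.2]
  left
  refine bl_sub_cor hj (mem_Bl.2 ?_)
  unfold nd d0 eu
  simp only [abs_eq_max_neg]
  omega

/-- boxes inside the star of the set of faces -/
lemma box_kf {j : ℕ} (hj : j ≤ k) {t : ℤ} (ht : 4 * t + 2 ≤ R) :
    Bx ((u j).1 - t) ((u j).1 + t) ((u j).2 - t) ((u j).2 + t) ⊆ starf (Kf u k i R ct) := by
  intro l hl
  rw [mem_Bx] at hl
  rw [mem_starf]
  refine ⟨((l.1 + 1) / 2, (l.2 + 1) / 2), bl_sub_cor hj (mem_Bl.2 ?_), ?_⟩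
  · unfold nd d1
    simp only [abs_eq_max_neg]
    omega
  · simp only [Prod.ext_iff]
    omega

end

end Pool.Agent.H23.Q1
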