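import Mathlib
import Pool.Agent.H23.Q1.Corr

set_option autoImplicit false
open Finset

/-! The Whitney type cover used in the solid flattening step. -/

namespace Pool.Agent.H23.Q1

open Pool.Agent.H75.Perc hiding dl
open Pool.Agent.H75.TwoArm Pool.Agent.H75.Four
open Pool.Agent.H77.Q1 hiding ad_du
open Pool.Agent.H75.TwoArm.StrandAux hiding vx_nxC
open Pool.Agent.Q1.M3 (star kap mem_star_iff mem_kap_iff)

/-- sup distance -/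
def sd (x v : ℤ × ℤ) : ℤ := max |v.1 - x.1| |v.2 - x.2|

lemma geo_half {q : ℝ} (h0 : 0 ≤ q) (h1 : q < 1) (L : ℕ) :
    ∑ n ∈ range L, q ^ (n / 2) ≤ 2 / (1 - q) := by
  have h2 : ∀ m : ℕ, ∑ n ∈ range (2 * m), q ^ (n / 2) = 2 * ∑ j ∈ range m, q ^ j := by
    intro m
    induction m with
    | zero => simp
    | succ m ih =>
      rw [show 2 * (m + 1) = 2 * m + 1 + 1 by ring, sum_range_succ, sum_range_succ, ih,
        sum_range_succ]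
      have e1 : 2 * m / 2 = m := by omega
      have e2 : (2 * m + 1) / 2 = m := by omega
      rw [e1, e2]; ring
  have h3 : ∑ n ∈ range L, q ^ (n / 2) ≤ ∑ n ∈ range (2 * L), q ^ (n / 2) := by
    refine sum_le_sum_of_subset_of_nonneg ?_ fun _ _ _ => pow_nonneg h0 _
    intro n hn
    rw [mem_range] at hn ⊢
    omega
  refine h3.trans ?_
  rw [h2]
  have h4 : (∑ j ∈ range L, q ^ j) * (1 - q) = 1 - q ^ L := geom_sum_mul_neg q L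
  have h5 : 0 < 1 - q := by linarith
  rw [le_div_iff₀ h5, mul_assoc, h4]
  have := pow_nonneg h0 L
  linarith

/-- the point of the grid of mesh `q` -/
lemma grid {x v q G : ℤ} (hq : 1 ≤ q) (hG : |v - x| ≤ G * q) :
    (-G ≤ (v - x) / q ∧ (v - x) / q ≤ G) ∧ |v - (x + (v - x) / q * q)| ≤ q := by
  have h1 := Int.emod_nonneg (v - x) (by omega : q ≠ 0)
  have h2 := Int.emod_lt_of_pos (v - x) (by omega : 0 < q)
  have h3 := Int.mul_ediv_add_emod (v - x) q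
  rw [abs_le] at hG
  refine ⟨⟨?_, ?_⟩, ?_⟩
  · rw [Int.le_ediv_iff_mul_le (by omega)]
    linarith [hG.1]
  · refine Int.ediv_le_of_le_mul (by omega) hG.2
  · have h4 : v - (x + (v - x) / q * q) = (v - x) % q := by linarith [mul_comm q ((v - x) / q)]
    rw [h4, abs_le]
    omega

/-- **Cover.** -/
theorem whitney {Val : ℤ × ℤ → Prop} {K : Finset (ℤ × ℤ)} {x0 : ℤ × ℤ} {D1 ρ1 N r A : ℤ} {k0 : ℕ}
    {δ C0 : ℝ} (hδ : 0 < δ) (hδ' : δ < 1) (hC : 0 ≤ C0) (hD : 1 ≤ D1) (hρ : 1 ≤ ρ1)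
    (hr : 0 ≤ r) (hk : 4 ^ k0 * r ≤ 2 * D1) (hk' : 4 ^ k0 * r ≤ 2 * ρ1) (hN : N ≤ A * ρ1)
    (hA : 0 ≤ A) (hV1 : ∀ v, Val v → 32 * D1 ≤ sd x0 v ∧ sd x0 v ≤ N)
    (hV2 : ∀ v, Val v → ∀ q, 1 ≤ q → q ≤ ρ1 → 4 ^ k0 * r ≤ 2 * q → 32 * q ≤ sd x0 v → ∀ p : ℤ × ℤ,
      |v.1 - p.1| ≤ q → |v.2 - p.2| ≤ q → ∀ x ∈ K, Far (4 * q + 1) p x) :
    ∃ (s : Finset ℕ) (p : ℕ → ℤ × ℤ) (ρ : ℕ → ℤ) (k : ℕ → ℕ),
      (∀ v, Val v → ∃ i ∈ s, |v.1 - (p i).1| ≤ ρ i ∧ |v.2 - (p i).2| ≤ ρ i) ∧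
      (∀ i ∈ s, 1 ≤ ρ i ∧ 4 ^ k i * r ≤ 2 * ρ i ∧ ∀ u ∈ K, Far (4 * ρ i + 1) (p i) u) ∧
      ∑ i ∈ s, C0 * (1 - δ) ^ k i ≤
        C0 * (40000 / δ + (2 * (A : ℝ) + 1) ^ 2) * (1 - δ) ^ k0 := by
  classical
  have hex : ∃ L : ℕ, ρ1 ≤ 2 ^ L * D1 := by
    obtain ⟨L, hL⟩ := pow_unbounded_of_one_lt ρ1 (by norm_num : (1 : ℤ) < 2)
    refine ⟨L, hL.le.trans ?_⟩
    have : (0 : ℤ) < 2 ^ L := by positivity
    nlinarith
  set L := Nat.find hex with hL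
  have hL1 : ρ1 ≤ 2 ^ L * D1 := Nat.find_spec hex
  have hL2 : ∀ n < L, 2 ^ n * D1 ≤ ρ1 := fun n hn => by
    have := Nat.find_min hex hn
    omega
  -- the index type
  let ι := (ℕ × (ℤ × ℤ)) ⊕ (ℤ × ℤ)
  let rad : ι → ℤ := fun i => Sum.elim (fun a => 2 ^ a.1 * D1) (fun _ => ρ1) i
  let pt : ι → ℤ × ℤ := fun i => Sum.elim
    (fun a => (x0.1 + a.2.1 * (2 ^ a.1 * D1), x0.2 + a.2.2 * (2 ^ a.1 * D1)))
    (fun a => (x0.1 + a.1 * ρ1, x0.2 + a.2 * ρ1)) i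
  let kk : ι → ℕ := fun i => Sum.elim (fun a => k0 + a.1 / 2) (fun _ => k0) i
  let S : Finset ι := ((range L ×ˢ (Icc (-64) 64 ×ˢ Icc (-64) 64)).disjSum
    (Icc (-A) A ×ˢ Icc (-A) A))
  let S' : Finset ι := S.filter fun i => ∃ v, Val v ∧ |v.1 - (pt i).1| ≤ rad i ∧
    |v.2 - (pt i).2| ≤ rad i ∧ 32 * rad i ≤ sd x0 v
  have hrad : ∀ i ∈ S, 1 ≤ rad i ∧ rad i ≤ ρ1 ∧ 4 ^ kk i * r ≤ 2 * rad i ∧
      4 ^ k0 * r ≤ 2 * rad i := by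
    rintro (⟨n, a⟩ | a) hi
    · have hn : n < L := by
        have h1 := Finset.inl_mem_disjSum.1 hi
        rw [mem_product, mem_range] at h1
        exact h1.1
      change 1 ≤ 2 ^ n * D1 ∧ 2 ^ n * D1 ≤ ρ1 ∧ 4 ^ (k0 + n / 2) * r ≤ 2 * (2 ^ n * D1) ∧
        4 ^ k0 * r ≤ 2 * (2 ^ n * D1)
      have h2 : (1 : ℤ) ≤ 2 ^ n := one_le_pow₀ (by norm_num)
      refine ⟨by nlinarith, hL2 n hn, ?_, by nlinarith⟩
      have h3 : (4 : ℤ) ^ (n / 2) ≤ 2 ^ n := by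
        have : (4 : ℤ) ^ (n / 2) = 2 ^ (2 * (n / 2)) := by rw [pow_mul]; norm_num
        rw [this]
        exact pow_le_pow_right₀ (by norm_num) (by omega)
      have h4 : (0 : ℤ) ≤ 4 ^ k0 * r := by positivity
      calc (4 : ℤ) ^ (k0 + n / 2) * r = 4 ^ (n / 2) * (4 ^ k0 * r) := by rw [pow_add]; ring
        _ ≤ 2 ^ n * (4 ^ k0 * r) := mul_le_mul_of_nonneg_right h3 h4
        _ ≤ 2 ^ n * (2 * D1) := mul_le_mul_of_nonneg_left hk (by positivity)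
        _ = 2 * (2 ^ n * D1) := by ring
    · exact ⟨hρ, le_rfl, hk', hk'⟩
  -- transfer to natural numbers
  let enc : ι ↪ ℕ := ⟨Encodable.encode, Encodable.encode_injective⟩
  let dec : ℕ → ι := fun j => (Encodable.decode (α := ι) j).getD (Sum.inr (0, 0))
  have hdec : ∀ i : ι, dec (enc i) = i := by
    intro i
    change (Encodable.decode (α := ι) (Encodable.encode i)).getD _ = i
    rw [Encodable.encodek]; rfl
  refine ⟨S'.map enc, fun j => pt (dec j), fun j => rad (dec j), fun j => kk (dec j), ?_, ?_, ?_⟩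
  · intro v hv
    obtain ⟨hv1, hv2⟩ := hV1 v hv
    have key : ∃ i ∈ S, |v.1 - (pt i).1| ≤ rad i ∧ |v.2 - (pt i).2| ≤ rad i ∧
        32 * rad i ≤ sd x0 v := by
      have hm1 : |v.1 - x0.1| ≤ sd x0 v := le_max_left _ _
      have hm2 : |v.2 - x0.2| ≤ sd x0 v := le_max_right _ _
      by_cases hbig : 32 * ρ1 ≤ sd x0 v
      · obtain ⟨g1, g2⟩ := grid (x := x0.1) (v := v.1) (q := ρ1) (G := A) hρ (by omega)
        obtain ⟨g3, g4⟩ := grid (x := x0.2) (v := v.2) (q := ρ1) (G := A) hρ (by omega)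
        refine ⟨Sum.inr ((v.1 - x0.1) / ρ1, (v.2 - x0.2) / ρ1), ?_, g2, g4, hbig⟩
        refine Finset.inr_mem_disjSum.2 ?_
        rw [mem_product, mem_Icc, mem_Icc]
        exact ⟨g1, g3⟩
      · have hex2 : ∃ m : ℕ, sd x0 v < 32 * (2 ^ m * D1) := ⟨L, by omega⟩
        obtain ⟨m, hm, hmin⟩ : ∃ m : ℕ, sd x0 v < 32 * (2 ^ m * D1) ∧
            ∀ j < m, 32 * (2 ^ j * D1) ≤ sd x0 v :=
          ⟨Nat.find hex2, Nat.find_spec hex2, fun j hj => by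
            have := Nat.find_min hex2 hj; omega⟩
        have hm0 : m ≠ 0 := by
          rintro rfl
          simp only [pow_zero, one_mul] at hm
          omega
        obtain ⟨n, rfl⟩ := Nat.exists_eq_succ_of_ne_zero hm0
        have hn := hmin n (Nat.lt_succ_self n)
        have hnL : n < L := by
          by_contra h1
          have h2 : (2 : ℤ) ^ L ≤ 2 ^ n := pow_le_pow_right₀ (by norm_num) (by omega)
          have h3 : (2 : ℤ) ^ L * D1 ≤ 2 ^ n * D1 := mul_le_mul_of_nonneg_right h2 (by omega)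
          omega
        have hq : (1 : ℤ) ≤ 2 ^ n * D1 := by
          have h2 : (1 : ℤ) ≤ 2 ^ n := one_le_pow₀ (by norm_num)
          nlinarith
        have hlt : sd x0 v ≤ 64 * (2 ^ n * D1) := by
          have : (2 : ℤ) ^ (n + 1) * D1 = 2 * (2 ^ n * D1) := by rw [pow_succ]; ring
          have hm' : sd x0 v < 32 * (2 ^ (n + 1) * D1) := hm
          rw [this] at hm'
          omega
        obtain ⟨g1, g2⟩ := grid (x := x0.1) (v := v.1) (q := 2 ^ n * D1) (G := 64) hq (by omega)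
        obtain ⟨g3, g4⟩ := grid (x := x0.2) (v := v.2) (q := 2 ^ n * D1) (G := 64) hq (by omega)
        refine ⟨Sum.inl (n, ((v.1 - x0.1) / (2 ^ n * D1), (v.2 - x0.2) / (2 ^ n * D1))), ?_, g2, g4, hn⟩
        refine Finset.inl_mem_disjSum.2 ?_
        rw [mem_product, mem_product, mem_range, mem_Icc, mem_Icc]
        exact ⟨hnL, g1, g3⟩
    obtain ⟨i, hi, h1, h2, h3⟩ := key
    refine ⟨enc i, mem_map_of_mem _ (mem_filter.2 ⟨hi, v, hv, h1, h2, h3⟩), ?_⟩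
    simp only [hdec]
    exact ⟨h1, h2⟩
  · intro j hj
    rw [mem_map] at hj
    obtain ⟨i, hi, rfl⟩ := hj
    simp only [hdec]
    obtain ⟨hi1, v, hv, h1, h2, h3⟩ := mem_filter.1 hi
    obtain ⟨g1, g2, g3, g4⟩ := hrad i hi1
    exact ⟨g1, g3, hV2 v hv _ g1 g2 g4 h3 _ h1 h2⟩
  · rw [sum_map]
    simp only [hdec]
    have h0 : (0 : ℝ) ≤ 1 - δ := by linarith
    have hnn : ∀ i : ι, 0 ≤ C0 * (1 - δ) ^ kk i := fun i => mul_nonneg hC (pow_nonneg h0 _)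
    refine (sum_le_sum_of_subset_of_nonneg (filter_subset _ _) fun i _ _ => hnn i).trans ?_
    rw [sum_disjSum]
    have e1 : ∑ x ∈ range L ×ˢ (Icc (-64 : ℤ) 64 ×ˢ Icc (-64 : ℤ) 64), C0 * (1 - δ) ^ kk (Sum.inl x)
        ≤ C0 * (40000 / δ) * (1 - δ) ^ k0 := by
      rw [sum_product]
      have e2 : ∀ n ∈ range L, ∑ y ∈ Icc (-64 : ℤ) 64 ×ˢ Icc (-64 : ℤ) 64,
          C0 * (1 - δ) ^ kk (Sum.inl (n, y)) = 16641 * (C0 * (1 - δ) ^ k0) * (1 - δ) ^ (n / 2) := by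
        intro n _
        have e3 : ∀ y ∈ Icc (-64 : ℤ) 64 ×ˢ Icc (-64 : ℤ) 64, C0 * (1 - δ) ^ kk (Sum.inl (n, y)) =
            C0 * (1 - δ) ^ (k0 + n / 2) := fun y _ => rfl
        rw [sum_congr rfl e3, sum_const, card_product, Int.card_Icc, pow_add,
          show ((64 : ℤ) + 1 - -64).toNat = 129 from rfl, nsmul_eq_mul]
        push_cast
        ring
      rw [sum_congr rfl e2, ← mul_sum]
      have e4 := geo_half h0 (by linarith : 1 - δ < 1) L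
      have e5 : 1 - (1 - δ) = δ := by ring
      rw [e5] at e4
      have e6 : 0 ≤ 16641 * (C0 * (1 - δ) ^ k0) :=
        mul_nonneg (by norm_num) (mul_nonneg hC (pow_nonneg h0 _))
      refine (mul_le_mul_of_nonneg_left e4 e6).trans ?_
      have e7 : 16641 * (C0 * (1 - δ) ^ k0) * (2 / δ) = C0 * (33282 / δ) * (1 - δ) ^ k0 := by ring
      rw [e7]
      refine mul_le_mul_of_nonneg_right (mul_le_mul_of_nonneg_left ?_ hC) (pow_nonneg h0 _)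
      exact div_le_div_of_nonneg_right (by norm_num) hδ.le
    have e8 : ∑ x ∈ Icc (-A) A ×ˢ Icc (-A) A, C0 * (1 - δ) ^ kk (Sum.inr x) =
        C0 * (2 * (A : ℝ) + 1) ^ 2 * (1 - δ) ^ k0 := by
      have e9 : ∀ y ∈ Icc (-A) A ×ˢ Icc (-A) A, C0 * (1 - δ) ^ kk (Sum.inr y) =
          C0 * (1 - δ) ^ k0 := fun y _ => rfl
      rw [sum_congr rfl e9, sum_const, card_product, Int.card_Icc, nsmul_eq_mul]
      have e10 : ((A + 1 - -A).toNat : ℝ) = 2 * (A : ℝ) + 1 := by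
        have : ((A + 1 - -A).toNat : ℤ) = 2 * A + 1 := by omega
        exact_mod_cast this
      push_cast
      rw [e10]
      ring
    have e11 : C0 * (40000 / δ + (2 * (A : ℝ) + 1) ^ 2) * (1 - δ) ^ k0 =
        C0 * (40000 / δ) * (1 - δ) ^ k0 + C0 * (2 * (A : ℝ) + 1) ^ 2 * (1 - δ) ^ k0 := by ring
    rw [e11, e8]
    linarith

lemma cover_arith {B r' q ρ1 l1 l2 v1 v2 w1 w2 c1 c2 x1 x2 : ℤ}
    (h4 : B + 1 ≤ |l1 - 2 * w1| + |l2 - 2 * w2| ∨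
      3 + 2 * (|w1 - x1| + |w2 - x2|) ≤ |l1 - 2 * w1| + |l2 - 2 * w2|)
    (hl1 : |l1 - 2 * v1| ≤ 2 * r') (hl2 : |l2 - 2 * v2| ≤ 2 * r') (hc1 : |v1 - c1| ≤ q)
    (hc2 : |v2 - c2| ≤ q) (hq4 : 32 * q ≤ |v1 - x1| ∨ 32 * q ≤ |v2 - x2|)
    (hw1 : |w1 - c1| ≤ 4 * q) (hw2 : |w2 - c2| ≤ 4 * q) (hR : 4 * r' + 20 * ρ1 ≤ B)
    (hq : 1 ≤ q) (hq1 : q ≤ ρ1) (hr : r' ≤ 8 * q) : False := by
  have a1 : |l1 - 2 * w1| ≤ 2 * r' + 10 * q := by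
    rw [abs_le] at *
    omega
  have a2 : |l2 - 2 * w2| ≤ 2 * r' + 10 * q := by
    rw [abs_le] at hl2 hc2 hw2 ⊢
    omega
  rcases h4 with h4 | h4
  · omega
  · have b1 := abs_nonneg (w1 - x1)
    have b2 := abs_nonneg (w2 - x2)
    rcases hq4 with h5 | h5
    · have h6 : |v1 - x1| ≤ |v1 - c1| + |w1 - c1| + |w1 - x1| := by
        have e1 : v1 - x1 = (v1 - c1) + (-(w1 - c1)) + (w1 - x1) := by ring
        rw [e1]
        refine (abs_add_three _ _ _).trans ?_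
        rw [abs_neg]
      omega
    · have h6 : |v2 - x2| ≤ |v2 - c2| + |w2 - c2| + |w2 - x2| := by
        have e1 : v2 - x2 = (v2 - c2) + (-(w2 - c2)) + (w2 - x2) := by ring
        rw [e1]
        refine (abs_add_three _ _ _).trans ?_
        rw [abs_neg]
      omega

section
variable {E W P : Finset (ℤ × ℤ)} {u : ℕ → ℤ × ℤ} {k i : ℕ} {ρ R : ℤ} {ct : ℤ × ℤ}

/-- **Cover for the opening step.** `v` ranges over the outer vertices at distance at least `32 D1` from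
the tip which are within `r'` of a label outside `P`. -/
theorem TipIn.cover_kv (h : TipIn P u k i ρ ct) {M D1 ρ1 N r r' A : ℤ} {k0 : ℕ} {δ C0 : ℝ}
    (hδ : 0 < δ) (hδ' : δ < 1) (hC : 0 ≤ C0) (hD : 1 ≤ D1) (hρ : 1 ≤ ρ1) (hr : 0 ≤ r)
    (hr' : r' ≤ 4 * r) (hk : 4 ^ k0 * r ≤ 2 * D1) (hk' : 4 ^ k0 * r ≤ 2 * ρ1) (hN : N ≤ A * ρ1)
    (hA : 0 ≤ A) (hR : 4 * r' + 20 * ρ1 ≤ 2 * ρ - R) :
    ∃ (s : Finset ℕ) (p : ℕ → ℤ × ℤ) (ρ' : ℕ → ℤ) (k' : ℕ → ℕ),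
      (∀ v, Out M (Kv u k i R ct) v → 32 * D1 ≤ sd (vx (opc ct)) v → sd (vx (opc ct)) v ≤ N →
        (∃ l : ℤ × ℤ, (l.1 + l.2) % 2 = 1 ∧ l ∉ P ∧ |l.1 - 2 * v.1| ≤ 2 * r' ∧
          |l.2 - 2 * v.2| ≤ 2 * r') →
        ∃ i ∈ s, |v.1 - (p i).1| ≤ ρ' i ∧ |v.2 - (p i).2| ≤ ρ' i) ∧
      (∀ j ∈ s, 1 ≤ ρ' j ∧ 4 ^ k' j * r ≤ 2 * ρ' j ∧
        ∀ w ∈ fill M (Kv u k i R ct), Far (4 * ρ' j + 1) (p j) w) ∧
      ∑ j ∈ s, C0 * (1 - δ) ^ k' j ≤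
        C0 * (40000 / δ + (2 * (A : ℝ) + 1) ^ 2) * (1 - δ) ^ k0 := by
  have key := whitney (K := fill M (Kv u k i R ct))
    (x0 := vx (opc ct)) (N := N) (A := A) (k0 := k0)
    (Val := fun v => Out M (Kv u k i R ct) v ∧ (32 * D1 ≤ sd (vx (opc ct)) v ∧
      sd (vx (opc ct)) v ≤ N) ∧ ∃ l : ℤ × ℤ, (l.1 + l.2) % 2 = 1 ∧ l ∉ P ∧ |l.1 - 2 * v.1| ≤ 2 * r' ∧
          |l.2 - 2 * v.2| ≤ 2 * r')
    hδ hδ' hC hD hρ hr hk hk' hN hA (fun v hv => hv.2.1)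
  obtain ⟨s, p, ρ', k', h1, h2, h3⟩ := key (by
    rintro v ⟨hv, -, l, ho, hl, hl1, hl2⟩ q hq1 hq2 hq3 hq4 c hc1 hc2
    have hrq : r ≤ 2 * q := by
      have : (1 : ℤ) ≤ 4 ^ k0 := one_le_pow₀ (by norm_num)
      nlinarith
    refine fill_far (p := c) (m := 4 * q) ?_ hv (by omega) (by omega)
    intro w hw
    by_contra hcon
    rw [not_or, not_le, not_le] at hcon
    unfold sd at hq4
    rw [le_max_iff] at hq4
    have h4 := h.far_kv hw ho hl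
    refine cover_arith (B := 2 * ρ - R) (w1 := w.1) (w2 := w.2) (by omega) hl1 hl2 hc1 hc2 hq4
      (by omega) (by omega) hR hq1 hq2 (by omega))
  exact ⟨s, p, ρ', k', fun v g1 g2 g3 g4 => h1 v ⟨g1, ⟨g2, g3⟩, g4⟩, h2, h3⟩

/-- **Cover for the closing step.** -/
theorem TipIn.cover_kf (h : TipIn P u k i ρ ct) {M D1 ρ1 N r r' A : ℤ} {k0 : ℕ} {δ C0 : ℝ}
    (hδ : 0 < δ) (hδ' : δ < 1) (hC : 0 ≤ C0) (hD : 1 ≤ D1) (hρ : 1 ≤ ρ1) (hr : 0 ≤ r)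
    (hr' : r' ≤ 4 * r) (hk : 4 ^ k0 * r ≤ 2 * D1) (hk' : 4 ^ k0 * r ≤ 2 * ρ1) (hN : N ≤ A * ρ1)
    (hA : 0 ≤ A) (hR : 4 * r' + 20 * ρ1 ≤ 2 * ρ - R) :
    ∃ (s : Finset ℕ) (p : ℕ → ℤ × ℤ) (ρ' : ℕ → ℤ) (k' : ℕ → ℕ),
      (∀ v, Out (M + 2) ((Kf u k i R ct).image tr) (tr v) → 32 * D1 ≤ sd (fi (opc ct)) v →
        sd (fi (opc ct)) v ≤ N →
        (∃ l : ℤ × ℤ, (l.1 + l.2) % 2 = 1 ∧ l ∉ P ∧ |l.1 + 1 - 2 * v.1| ≤ 2 * r' ∧
          |l.2 + 1 - 2 * v.2| ≤ 2 * r') →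
        ∃ i ∈ s, |v.1 - (p i).1| ≤ ρ' i ∧ |v.2 - (p i).2| ≤ ρ' i) ∧
      (∀ j ∈ s, 1 ≤ ρ' j ∧ 4 ^ k' j * r ≤ 2 * ρ' j ∧
        ∀ w ∈ fillf M (Kf u k i R ct), Far (4 * ρ' j + 1) (p j) w) ∧
      ∑ j ∈ s, C0 * (1 - δ) ^ k' j ≤
        C0 * (40000 / δ + (2 * (A : ℝ) + 1) ^ 2) * (1 - δ) ^ k0 := by
  have key := whitney (K := fillf M (Kf u k i R ct))
    (x0 := fi (opc ct)) (N := N) (A := A) (k0 := k0)
    (Val := fun v => Out (M + 2) ((Kf u k i R ct).image tr) (tr v) ∧ (32 * D1 ≤ sd (fi (opc ct)) v ∧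
      sd (fi (opc ct)) v ≤ N) ∧ ∃ l : ℤ × ℤ, (l.1 + l.2) % 2 = 1 ∧ l ∉ P ∧
          |l.1 + 1 - 2 * v.1| ≤ 2 * r' ∧ |l.2 + 1 - 2 * v.2| ≤ 2 * r')
    hδ hδ' hC hD hρ hr hk hk' hN hA (fun v hv => hv.2.1)
  obtain ⟨s, p, ρ', k', h1, h2, h3⟩ := key (by
    rintro v ⟨hv, -, l, ho, hl, hl1, hl2⟩ q hq1 hq2 hq3 hq4 c hc1 hc2
    have hrq : r ≤ 2 * q := by
      have : (1 : ℤ) ≤ 4 ^ k0 := one_le_pow₀ (by norm_num)
      nlinarith
    refine fillf_far (p := c) (m := 4 * q) ?_ hv (by omega) (by omega)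
    intro w hw
    by_contra hcon
    rw [not_or, not_le, not_le] at hcon
    unfold sd at hq4
    rw [le_max_iff] at hq4
    have h4 := h.far_kf hw ho hl
    refine cover_arith (l1 := l.1 + 1) (l2 := l.2 + 1) (B := 2 * ρ - R) (w1 := w.1) (w2 := w.2)
      (by omega) hl1 hl2 hc1 hc2 hq4
      (by omega) (by omega) hR hq1 hq2 (by omega))
  exact ⟨s, p, ρ', k', fun v g1 g2 g3 g4 => h1 v ⟨g1, ⟨g2, g3⟩, g4⟩, h2, h3⟩

end

end Pool.Agent.H23.Q1
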