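import Mathlib
import Pool.Agent.H23.Q1.Cover

set_option autoImplicit false
open Finset

/-! Labels close to a label outside `E` are off the filled sets. -/

namespace Pool.Agent.H23.Q1

open Pool.Agent.H75.Perc hiding dl
open Pool.Agent.H75.TwoArm Pool.Agent.H75.Four
open Pool.Agent.H77.Q1 hiding ad_du
open Pool.Agent.H75.TwoArm.StrandAux hiding vx_nxC
open Pool.Agent.Q1.M3 (star kap mem_star_iff mem_kap_iff)
open Pool.Agent.Q1 (DCo)

section
variable {M : ℤ} {E W K K' : Finset (ℤ × ℤ)} {ct : ℤ × ℤ}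

/-- a vertex next to a face joined to the face of the tip off `star K` is outer -/
lemma KT0.out_of_dual (h : KT0 M E W K ct) {η : Finset (ℤ × ℤ)}
    (hη : Pool.Agent.Q1.M3.star K ⊆ η) {g a : ℤ × ℤ}
    (hg : Co (du (H75.TwoArm.BB M) η) (fi ct) g) (ha : Af a g) (hM : Ib M a) (hK : a ∉ K) :
    Out M K a :=
  Out.mem_path (kc_of_dual hη hg (ar_vx ct) a ha hM hK) h.out

/-- the faces of a wired label are outer -/
lemma KD0.out_of_wired (h : KD0 M E W K ct) {w : ℤ × ℤ} (hw : w ∈ W) {g g' : ℤ × ℤ}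
    (hg : IsUnit4 (g' - g)) (hw' : lbf g g' = w) : Out (M + 2) (K.image tr) (tr g) := by
  have ho : (w.1 + w.2) % 2 = 1 := (mem_BB'.1 (h.hW hw)).2.2
  have hE' : w ∉ E := fun h1 => disjoint_left.1 h.disj h1 hw
  -- the path in the dual picture
  have h1 : Co (du (H75.TwoArm.BB (M + 2)) (E.map dl)) (fi (dc ct)) (tr (eu w) + (1, 1)) := by
    rw [fi_dc]
    refine co_dl2 (A := W) ?_ (h.wired w hw).symm
    intro l hl
    have h7 := mem_BB'.1 (h.hW hl)
    refine ⟨?_, ?_⟩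
    · rw [mem_BB', dl_apply]
      simp only
      omega
    · rw [mem_map' dl]
      exact fun h8 => disjoint_left.1 h.disj h8 hl
  have hst : Pool.Agent.Q1.M3.star (K.image tr) ⊆ E.map dl := by
    rw [← starf_dl]
    exact map_subset_map.2 h.star
  refine h.dual.out_of_dual hst h1 ?_ ?_ ?_
  · have h2 := unit_cases hg
    have h3 := congrArg Prod.fst hw'
    have h4 := congrArg Prod.snd hw'
    unfold lbf at h3 h4
    simp only [Prod.fst_sub, Prod.snd_sub, Prod.fst_add, Prod.snd_add] at h3 h4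
    unfold Af tr eu
    simp only [Prod.ext_iff, Prod.fst_add, Prod.snd_add]
    omega
  · have h2 := unit_cases hg
    have h3 := congrArg Prod.fst hw'
    have h4 := congrArg Prod.snd hw'
    have h5 := mem_BB'.1 (h.hW hw)
    unfold lbf at h3 h4
    simp only [Prod.fst_sub, Prod.snd_sub, Prod.fst_add, Prod.snd_add] at h3 h4
    unfold Ib tr
    simp only
    omega
  · rw [mem_image_tr, tr_tr]
    intro h2
    apply hE'
    apply h.star
    rw [← hw', ← mem_dl_starf, dl_lbf]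
    have h3 : IsUnit4 (tr g' - tr g) := by rw [unit_tr]; exact hg
    have h4 : ((tr g + tr g').1 + (tr g + tr g').2) % 2 = 1 := by
      have := unit_cases h3
      simp only [Prod.fst_add, Prod.snd_add]
      omega
    rw [mem_star_iff h4]
    rcases H69.Q1.ends_of_add h3 rfl with ⟨h5, -⟩ | ⟨h5, -⟩
    · left; rw [← h5]; exact mem_image_of_mem _ h2
    · right; rw [← h5]; exact mem_image_of_mem _ h2

/-- **Labels outside `E`**: their ends are outer for the vertices, their faces are outer for the faces. -/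
theorem near_out (hT : KT0 M E W K ct) (hF : KD0 M E W K' ct) {l : ℤ × ℤ}
    (hl : l ∈ H75.TwoArm.BB M) (hlE : l ∉ E) :
    (∀ a, (a = eu l ∨ a = ev l) → Out M K a) ∧
    ∀ g g', IsUnit4 (g' - g) → lbf g g' = l → Out (M + 2) (K'.image tr) (tr g) := by
  have ho : (l.1 + l.2) % 2 = 1 := (mem_BB'.1 hl).2.2
  have hlK : l ∉ Pool.Agent.Q1.M3.star K := fun h => hlE (hT.star h)
  have hlK' : l ∉ starf K' := fun h => hlE (hF.star h)
  rw [mem_star_iff ho, not_or] at hlK
  by_cases hW : l ∈ W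
  · refine ⟨?_, fun g g' h1 h2 => hF.out_of_wired hW h1 h2⟩
    have hWK : Disjoint W (Pool.Agent.Q1.M3.star K) :=
      disjoint_left.2 fun l h1 h2 => disjoint_left.1 hT.disj (hT.star h2) h1
    have hWM : W ⊆ H75.TwoArm.BB M := hT.hW.trans (BB_sub (by omega))
    have h1 := PivAux.eu_ev ho
    rintro a (rfl | rfl)
    · exact hT.out_of_co hWK hWM (hT.wired l hW)
    · refine hT.out_of_co hWK hWM (Co.trans (Co.symm
        (Relation.ReflTransGen.single ⟨h1.1, ?_⟩)) (hT.wired l hW))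
      rw [h1.2]; exact hW
  · have key : ∀ g g', IsUnit4 (g' - g) → lbf g g' = l →
        Co (du (H75.TwoArm.BB M) (E ∪ W)) (fi ct) g := by
      intro g g' h1 h2
      exact hF.free g g' h1 (by rw [h2]; exact hl) (by rw [h2]; exact hlE) (by rw [h2]; exact hW)
    refine ⟨?_, ?_⟩
    · obtain ⟨g, g', h1, h2⟩ := exists_faces ho
      intro a ha
      have h3 : Af a g := (ar_ends h1 (by rw [h2]; exact ha)).1
      refine hT.out_of_dual (fun e he => mem_union_left _ (hT.star he)) (key g g' h1 h2) h3 ?_ ?_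
      · rcases ha with rfl | rfl
        · exact (ib_ends hl).1
        · exact (ib_ends hl).2
      · rcases ha with rfl | rfl
        · exact hlK.1
        · exact hlK.2
    · intro g g' h1 h2
      exact hF.out_of_co (fun e he => mem_union_left _ (hF.star he)) (key g g' h1 h2).symm

end

/-! ### the chain -/

section
variable {E W P : Finset (ℤ × ℤ)} {u : ℕ → ℤ × ℤ} {k i : ℕ} {ρ R : ℤ} {ct : ℤ × ℤ}

lemma near_arith {B r D l1 l2 o1 o2 w1 w2 p1 p2 x1 x2 : ℤ}
    (h4 : B + 1 ≤ |l1 - 2 * w1| + |l2 - 2 * w2| ∨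
      3 + 2 * (|w1 - x1| + |w2 - x2|) ≤ |l1 - 2 * w1| + |l2 - 2 * w2|)
    (hl1 : |l1 - o1| ≤ r) (hl2 : |l2 - o2| ≤ r) (hp1 : |o1 - 2 * p1| ≤ 1) (hp2 : |o2 - 2 * p2| ≤ 1)
    (hD : D ≤ |o1 - 2 * x1| ∨ D ≤ |o2 - 2 * x2|)
    (hw1 : |w1 - p1| ≤ r + 1) (hw2 : |w2 - p2| ≤ r + 1) (hB : 6 * r + 6 ≤ B)
    (hr : 8 * r + 9 < D) : False := by
  have a1 : |l1 - 2 * w1| ≤ 3 * r + 3 := by
    rw [abs_le] at *
    omega
  have a2 : |l2 - 2 * w2| ≤ 3 * r + 3 := by
    rw [abs_le] at hl2 hp2 hw2 ⊢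
    omega
  rcases h4 with h4 | h4
  · omega
  · have b1 := abs_nonneg (w1 - x1)
    have b2 := abs_nonneg (w2 - x2)
    rcases hD with h5 | h5
    · have h6 : |o1 - 2 * x1| ≤ 1 + 2 * (r + 1) + 2 * |w1 - x1| := by
        have h7 := neg_abs_le (w1 - x1)
        have h8 := le_abs_self (w1 - x1)
        rw [abs_le] at hp1 hw1 ⊢
        omega
      omega
    · have h6 : |o2 - 2 * x2| ≤ 1 + 2 * (r + 1) + 2 * |w2 - x2| := by
        have h7 := neg_abs_le (w2 - x2)
        have h8 := le_abs_self (w2 - x2)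
        rw [abs_le] at hp2 hw2 ⊢
        omega
      omega

/-- the ends of labels near the complement of `E` and far from the tip -/
theorem TipIn.near_kv (h : TipIn P u k i ρ ct) {M r D : ℤ}
    (hT : KT0 M E W (Kv u k i R ct) ct) (hF : KD0 M E W (Kf u k i R ct) ct) (hP : P ⊆ E)
    (hR : 6 * r + 6 ≤ 2 * ρ - R) (hr0 : 0 ≤ r) (hr : 8 * r + 9 < D) {o l : ℤ × ℤ}
    (ho : (o.1 + o.2) % 2 = 1) (hoM : o ∈ H75.TwoArm.BB M)
    (hl : l ∈ H75.TwoArm.BB M) (hlE : l ∉ E) (h1 : |l.1 - o.1| ≤ r) (h2 : |l.2 - o.2| ≤ r)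
    (hD : D ≤ |o.1 - 2 * (vx (opc ct)).1| ∨ D ≤ |o.2 - 2 * (vx (opc ct)).2|) {v : ℤ × ℤ}
    (hv : v = eu o ∨ v = ev o) : Out M (Kv u k i R ct) v ∧ v ∉ fill M (Kv u k i R ct) := by
  have hol : (l.1 + l.2) % 2 = 1 := (mem_BB'.1 hl).2.2
  have hvo : |o.1 - 2 * v.1| ≤ 1 ∧ |o.2 - 2 * v.2| ≤ 1 := by
    rcases hv with rfl | rfl
    · unfold eu; simp only [abs_le]; omega
    · unfold ev; simp only [abs_le]; omega
  have hout := (near_out hT hF hl hlE).1 (eu l) (Or.inl rfl)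
  have hel : |(eu l).1 - v.1| ≤ r + 1 ∧ |(eu l).2 - v.2| ≤ r + 1 := by
    unfold eu
    simp only [abs_le] at *
    omega
  have hfar := fill_far (p := v) (m := r + 1) (K := Kv u k i R ct) (by
    intro w hw
    by_contra hcon
    rw [not_or, not_le, not_le] at hcon
    have h4 := h.far_kv hw hol (fun h5 => hlE (hP h5))
    exact near_arith (B := 2 * ρ - R) (w1 := w.1) (w2 := w.2) (by omega) h1 h2 hvo.1 hvo.2 hD
      (by omega) (by omega) hR hr) hout hel.1 hel.2
  have hnf : v ∉ fill M (Kv u k i R ct) := by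
    intro h5
    have := hfar v h5
    simp only [sub_self, abs_zero] at this
    omega
  refine ⟨?_, hnf⟩
  have hib : Ib M v := by
    rcases hv with rfl | rfl
    · exact (ib_ends hoM).1
    · exact (ib_ends hoM).2
  by_contra h6
  exact hnf (mem_fill.2 ⟨hib, h6⟩)

/-- the faces of labels near the complement of `E` and far from the tip -/
theorem TipIn.near_kf (h : TipIn P u k i ρ ct) {M r D : ℤ}
    (hT : KT0 M E W (Kv u k i R ct) ct) (hF : KD0 M E W (Kf u k i R ct) ct) (hP : P ⊆ E)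
    (hR : 6 * r + 6 ≤ 2 * ρ - R) (hr0 : 0 ≤ r) (hr : 8 * r + 9 < D) {o l : ℤ × ℤ}
    (hoM : o ∈ H75.TwoArm.BB M)
    (hl : l ∈ H75.TwoArm.BB M) (hlE : l ∉ E) (h1 : |l.1 - o.1| ≤ r) (h2 : |l.2 - o.2| ≤ r)
    (hD : D ≤ |o.1 + 1 - 2 * (fi (opc ct)).1| ∨ D ≤ |o.2 + 1 - 2 * (fi (opc ct)).2|) {g g' : ℤ × ℤ}
    (hg : IsUnit4 (g' - g)) (hgo : lbf g g' = o) :
    Out (M + 2) ((Kf u k i R ct).image tr) (tr g) ∧ g ∉ fillf M (Kf u k i R ct) := by
  have hol : (l.1 + l.2) % 2 = 1 := (mem_BB'.1 hl).2.2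
  have e1 : ∀ {g g' o : ℤ × ℤ}, IsUnit4 (g' - g) → lbf g g' = o →
      |o.1 + 1 - 2 * g.1| ≤ 1 ∧ |o.2 + 1 - 2 * g.2| ≤ 1 := by
    intro g g' o h3 h4
    have h5 := unit_cases h3
    have h6 := congrArg Prod.fst h4
    have h7 := congrArg Prod.snd h4
    unfold lbf at h6 h7
    simp only [Prod.fst_sub, Prod.snd_sub, Prod.fst_add, Prod.snd_add] at h6 h7
    rw [abs_le, abs_le]
    omega
  have hvo := e1 hg hgo
  obtain ⟨f, f', hf, hfl⟩ := exists_faces hol
  have hfo := e1 hf hfl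
  have hout := (near_out hT hF hl hlE).2 f f' hf hfl
  have hel : |f.1 - g.1| ≤ r + 1 ∧ |f.2 - g.2| ≤ r + 1 := by
    simp only [abs_le] at *
    omega
  have hfar := fillf_far (p := g) (m := r + 1) (K := Kf u k i R ct) (by
    intro w hw
    by_contra hcon
    rw [not_or, not_le, not_le] at hcon
    have h4 := h.far_kf hw hol (fun h5 => hlE (hP h5))
    have e2 : |l.1 + 1 - (o.1 + 1)| ≤ r := by
      rw [show l.1 + 1 - (o.1 + 1) = l.1 - o.1 by ring]; exact h1
    have e3 : |l.2 + 1 - (o.2 + 1)| ≤ r := by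
      rw [show l.2 + 1 - (o.2 + 1) = l.2 - o.2 by ring]; exact h2
    exact near_arith (B := 2 * ρ - R) (w1 := w.1) (w2 := w.2) (by omega) e2 e3 hvo.1 hvo.2 hD
      (by omega) (by omega) hR hr) hout hel.1 hel.2
  have hnf : g ∉ fillf M (Kf u k i R ct) := by
    intro h5
    have := hfar g h5
    simp only [sub_self, abs_zero] at this
    omega
  refine ⟨?_, hnf⟩
  have hib : Ib (M + 2) (tr g) := by
    have h5 := mem_BB'.1 hoM
    unfold Ib tr
    simp only [abs_le] at *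
    omega
  by_contra h6
  exact hnf (mem_fillf.2 (mem_fill.2 ⟨hib, h6⟩))

end

end Pool.Agent.H23.Q1
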