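import Mathlib
import Pool.Agent.H23.Q1.NearOut
import Pool.Agent.H33.Q1.Box
import Pool.Agent.H77.Q1.Star

set_option autoImplicit false
open Finset

/-! **D8**: the steps of the chain before and after the solid flattening (`COMP`). -/

namespace Pool.Agent.H23.Q1

open Pool.Agent.H75.Perc hiding dl
open Pool.Agent.H75.TwoArm Pool.Agent.H75.Four
open Pool.Agent.H77.Q1 hiding ad_du
open Pool.Agent.H75.TwoArm.StrandAux hiding vx_nxC
open Pool.Agent.Q1.M3 (star kap mem_star_iff mem_kap_iff)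
open Pool.Agent.Q1 (DCo Env Qt)
open Pool.Agent.Q1.M6c (Dobr DEnvX PlaneK PlaneEnv Free InQ mm le_mm inQ_inB)

/-- a bound of the coordinates of a finite set of labels -/
lemma exists_bound (S : Finset (ℤ × ℤ)) : ∃ M0 : ℤ, 0 ≤ M0 ∧ ∀ l ∈ S, |l.1| ≤ M0 ∧ |l.2| ≤ M0 := by
  classical
  refine ⟨∑ l ∈ S, (|l.1| + |l.2|), sum_nonneg fun l _ => by positivity, fun l hl => ?_⟩
  have h : |l.1| + |l.2| ≤ ∑ l ∈ S, (|l.1| + |l.2|) :=
    single_le_sum (f := fun l : ℤ × ℤ => |l.1| + |l.2|) (fun l _ => by positivity) hl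
  have h1 := abs_nonneg l.1
  have h2 := abs_nonneg l.2
  omega

/-- the stopping region of a chain -/
noncomputable def Reg (u : ℕ → ℤ × ℤ) (k : ℕ) (ρ : ℤ) : Finset (ℤ × ℤ) :=
  (range (k + 1)).biUnion fun j => Dm (u j) ρ

lemma mem_Reg {u : ℕ → ℤ × ℤ} {k : ℕ} {ρ : ℤ} {l : ℤ × ℤ} : l ∈ Reg u k ρ ↔
    (l.1 + l.2) % 2 = 1 ∧ ∃ j ≤ k, nl (u j) l ≤ 2 * ρ - 1 := by
  unfold Reg nl
  rw [mem_biUnion]
  constructor
  · rintro ⟨j, hj, h⟩
    rw [mem_range] at hj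
    rw [mem_Dm] at h
    exact ⟨h.1, j, by omega, h.2⟩
  · rintro ⟨h1, j, hj, h⟩
    exact ⟨j, mem_range.2 (by omega), mem_Dm.2 ⟨h1, h⟩⟩

/-- labels of a common corner -/
lemma nl_plab (u z : ℤ × ℤ) : nl u (plab z) ≤ nl u (lab z) + 2 := by
  have h := corner_nd u z
  unfold nl
  have h1 : |(plab z).1 - (lab z).1| ≤ 1 ∧ |(plab z).2 - (lab z).2| ≤ 1 := by
    unfold plab lab
    have h1 : z.1 % 2 = 0 ∨ z.1 % 2 = 1 := by omega
    have h2 : z.2 % 2 = 0 ∨ z.2 % 2 = 1 := by omega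
    rcases h1 with h1 | h1 <;> rcases h2 with h2 | h2 <;> simp only [h1, h2] <;> norm_num
  simp only [abs_eq_max_neg] at *
  omega

theorem tipIn_of {X : Env} {u : ℕ → ℤ × ℤ} {k : ℕ} {ρ : ℤ} (hρ : 1 ≤ ρ) (hr : plab X.c0 ∉ X.E)
    (hc : Chn X.E u k ρ) (ht : Tip X u k ρ) : ∃ i, TipIn (Reg u k ρ) u k i ρ X.c0 := by
  obtain ⟨i, hi, h1⟩ := ht.mem
  have hPE : Reg u k ρ ⊆ X.E := by
    intro l hl
    unfold Reg at hl
    rw [mem_biUnion] at hl
    obtain ⟨j, hj, hl⟩ := hl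
    rw [mem_range] at hj
    exact hc.free j (by omega) hl
  have hp : plab X.c0 ∉ Reg u k ρ := fun h => hr (hPE h)
  have h1' := mem_Dm.1 h1
  have h2 : 2 * ρ - 1 ≤ nl (u i) (lab X.c0) := by
    by_contra h3
    apply hp
    rw [mem_Reg]
    refine ⟨(plab_end X.c0).2, i, hi, ?_⟩
    have h4 := nl_plab (u i) X.c0
    have h5 : nl (u i) (plab X.c0) % 2 = 1 := by
      have := (plab_end X.c0).2
      unfold nl
      simp only [abs_eq_max_neg]
      omega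
    omega
  have h3 := ht.ext i hi
  rw [mem_Ext hρ] at h3
  unfold nl at h2
  have h4 : |(lab X.c0).1 - 2 * (u i).1| + |(lab X.c0).2 - 2 * (u i).2| = 2 * ρ - 1 := by
    have := h1'.2
    omega
  refine ⟨i, fun l => mem_Reg, hi, h1'.2, fun h5 => h3 ⟨h4, Or.inl h5⟩,
    fun h5 => h3 ⟨h4, Or.inr h5⟩, hp⟩

/-- **D8.** -/
theorem comp_ok : COMP := by
  obtain ⟨δ, C0, hδ0, hδ1, hC0, key⟩ := Pool.Agent.H33.Q1.box_compare
  refine ⟨δ, hδ0, hδ1, ?_⟩
  intro A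
  refine ⟨4 * (C0 * (40000 / δ + (2 * ((128 * A + 64 : ℤ) : ℝ) + 1) ^ 2)), ?_⟩
  intro X W a N u k ρ m r D1 n k0 ρ' O C hCL hkA hN hρ hρ'1 hρ'2 hRC hD1 hr1 h4D h4ρ j hj
  have hA0 : 0 ≤ A := by
    have : (0 : ℤ) ≤ k := Int.natCast_nonneg k
    omega
  have hE := hCL.denv
  have hd := hE.dob
  obtain ⟨i, hTip⟩ := tipIn_of (by omega) hd.root hCL.chn hCL.tip
  have hPE : Reg u k ρ ⊆ X.E := by
    intro l hl
    unfold Reg at hl
    rw [mem_biUnion] at hl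
    obtain ⟨j, hj, hl⟩ := hl
    rw [mem_range] at hj
    exact hCL.chn.free j (by omega) hl
  have hodd := hd.odd
  -- sizes
  have hpow : (1 : ℤ) ≤ 4 ^ k0 := one_le_pow₀ (by norm_num)
  have hr4 : r ≤ 4 ^ k0 * r := by nlinarith
  have hrρ : 64 * r ≤ ρ := by nlinarith
  have hrD : r ≤ D1 := hr4.trans h4D
  have h4ρ2 : 64 * (4 ^ k0 * r) ≤ ρ := by rw [← mul_assoc]; exact h4ρ
  set ρ1 : ℤ := ρ / 32 with hρ1
  have hρ1a : 32 * ρ1 ≤ ρ := by omega
  have hρ1b : ρ ≤ 32 * ρ1 + 31 := by omega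
  -- the large box
  obtain ⟨M0, hM0, hM1⟩ := exists_bound (X.E ∪ W)
  set M : ℤ := M0 + r + 4 with hM
  have hbb : ∀ l : ℤ × ℤ, (l.1 + l.2) % 2 = 1 → |l.1| ≤ M0 + r → |l.2| ≤ M0 + r →
      l ∈ H75.TwoArm.BB (M - 1) := by
    intro l h1 h2 h3
    rw [mem_BB']
    rw [abs_le] at h2 h3
    omega
  have hbE : X.E ⊆ H75.TwoArm.BB (M - 1) := fun l hl => by
    have := hM1 l (mem_union_left _ hl)
    exact hbb l (hd.odd l hl) (by omega) (by omega)
  have hbW : W ⊆ H75.TwoArm.BB (M - 1) := fun l hl => by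
    have := hM1 l (mem_union_right _ hl)
    exact hbb l (hd.oddW l hl) (by omega) (by omega)
  have hbM : H75.TwoArm.BB (M - 1) ⊆ H75.TwoArm.BB M := BB_sub (by omega)
  -- the sets
  have hstep : ∀ j < k, nd (d0 (u j)) (u (j + 1)) + 2 ≤ ρ := by
    intro j hj
    have h1 := hCL.chn.step j hj
    unfold nd d0
    simp only [abs_eq_max_neg] at *
    omega
  have hT0 := hTip.kt hd hbE hbW hPE (R := ρ) (by omega) le_rfl hstep
  have hF0 := hTip.kd hd hbE hbW hPE (R := ρ) (by omega) le_rfl hstep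
  set Kv' := fill M (Kv u k i ρ X.c0) with hKv'
  set Kf' := fillf M (Kf u k i ρ X.c0) with hKf'
  -- the tip
  have hlabE : lab X.c0 ∈ X.E := by
    obtain ⟨i', hi', h1⟩ := hCL.tip.mem
    exact hCL.chn.free i' hi' h1
  have hx0 : |(lab X.c0).1 - 2 * (vx (opc X.c0)).1| ≤ 1 ∧
      |(lab X.c0).2 - 2 * (vx (opc X.c0)).2| ≤ 1 := by
    have ho := H69.Q1.odd_lab X.c0
    rcases ends_lab X.c0 with ⟨-, h1⟩ | ⟨-, h1⟩ <;> rw [h1]
    · unfold ev; simp only [abs_le]; omega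
    · unfold eu; simp only [abs_le]; omega
  have hf0 : |(lab X.c0).1 + 1 - 2 * (fi (opc X.c0)).1| ≤ 1 ∧
      |(lab X.c0).2 + 1 - 2 * (fi (opc X.c0)).2| ≤ 1 := by
    have ho := H69.Q1.odd_lab X.c0
    have h2 := ends_lab (dc X.c0)
    rw [opc_dc, vx_dc, vx_dc, lab_dc, dl_apply] at h2
    rcases h2 with ⟨-, h1⟩ | ⟨-, h1⟩
    · have h3 := congrArg Prod.fst h1
      have h4 := congrArg Prod.snd h1
      unfold tr ev at h3 h4
      simp only at h3 h4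
      simp only [abs_le]; omega
    · have h3 := congrArg Prod.fst h1
      have h4 := congrArg Prod.snd h1
      unfold tr eu at h3 h4
      simp only at h3 h4
      simp only [abs_le]; omega
  -- labels of `O ∪ C`
  have hOCE : ∀ o ∈ O ∪ C, o ∈ X.E := by
    intro o ho
    rcases mem_union.1 ho with h | h
    · exact hRC.hO h
    · exact hRC.hC h
  have hnear : ∀ o ∈ O ∪ C, ∃ l : ℤ × ℤ, (l.1 + l.2) % 2 = 1 ∧ l ∉ X.E ∧ l ∈ H75.TwoArm.BB M ∧
      |l.1 - o.1| ≤ r ∧ |l.2 - o.2| ≤ r := by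
    intro o ho
    obtain ⟨l, h1, h2, h3, h4⟩ := hRC.near o ho
    refine ⟨l, h1, h2, hbM (hbb l h1 ?_ ?_), h3, h4⟩
    · have h5 := hM1 o (mem_union_left _ (hOCE o ho))
      rw [abs_le] at *
      omega
    · have h5 := (hM1 o (mem_union_left _ (hOCE o ho))).2
      rw [abs_le] at h4 h5 ⊢
      omega
  have hfarv : ∀ o ∈ O ∪ C, 64 * D1 + 98 ≤ |o.1 - 2 * (vx (opc X.c0)).1| ∨
      64 * D1 + 98 ≤ |o.2 - 2 * (vx (opc X.c0)).2| := by
    intro o ho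
    have h1 := hRC.far o ho
    simp only [abs_eq_max_neg] at *
    omega
  have hfarf : ∀ o ∈ O ∪ C, 64 * D1 + 98 ≤ |o.1 + 1 - 2 * (fi (opc X.c0)).1| ∨
      64 * D1 + 98 ≤ |o.2 + 1 - 2 * (fi (opc X.c0)).2| := by
    intro o ho
    have h1 := hRC.far o ho
    simp only [abs_eq_max_neg] at *
    omega
  have hnv : ∀ o ∈ O ∪ C, ∀ v, (v = eu o ∨ v = ev o) →
      Out M (Kv u k i ρ X.c0) v ∧ v ∉ Kv' := by
    intro o ho v hv
    obtain ⟨l, h1, h2, h3, h4, h5⟩ := hnear o ho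
    exact hTip.near_kv hT0 hF0 hPE (by omega) (by omega) (D := 64 * D1 + 98) (by omega)
      (hodd o (hOCE o ho)) (hbM (hbE (hOCE o ho))) h3 h2 h4 h5 (hfarv o ho) hv
  have hnf : ∀ o ∈ O ∪ C, ∀ g g', IsUnit4 (g' - g) → lbf g g' = o →
      Out (M + 2) ((Kf u k i ρ X.c0).image tr) (tr g) ∧ g ∉ Kf' := by
    intro o ho g g' hg hgo
    obtain ⟨l, h1, h2, h3, h4, h5⟩ := hnear o ho
    exact hTip.near_kf hT0 hF0 hPE (by omega) (by omega) (D := 64 * D1 + 98) (by omega)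
      (hbM (hbE (hOCE o ho))) h3 h2 h4 h5 (hfarf o ho) hg hgo
  have hoff : ∀ o ∈ O ∪ C, o ∈ X.E \ (Pool.Agent.Q1.M3.star Kv' ∪ starf Kf') := by
    intro o ho
    have hoo := hodd o (hOCE o ho)
    refine mem_sdiff.2 ⟨hOCE o ho, fun h => ?_⟩
    rcases mem_union.1 h with h | h
    · rw [mem_star_iff hoo] at h
      rcases h with h | h
      · exact (hnv o ho _ (Or.inl rfl)).2 h
      · exact (hnv o ho _ (Or.inr rfl)).2 h
    · obtain ⟨f, hf, hfo⟩ := mem_starf.1 h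
      have h1 : ∃ g, IsUnit4 (g - f) ∧ lbf f g = o := by
        rcases hfo with h2 | h2 | h2 | h2
        · refine ⟨(f.1 - 1, f.2), ?_, ?_⟩
          · unfold IsUnit4; simp [Prod.ext_iff]
          · rw [h2]; unfold lbf; refine Prod.ext ?_ ?_ <;> simp only [Prod.fst_sub, Prod.snd_sub,
              Prod.fst_add, Prod.snd_add] <;> ring
        · refine ⟨(f.1 + 1, f.2), ?_, ?_⟩
          · unfold IsUnit4; simp [Prod.ext_iff]
          · rw [h2]; unfold lbf; refine Prod.ext ?_ ?_ <;> simp only [Prod.fst_sub, Prod.snd_sub,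
              Prod.fst_add, Prod.snd_add] <;> ring
        · refine ⟨(f.1, f.2 - 1), ?_, ?_⟩
          · unfold IsUnit4; simp [Prod.ext_iff]
          · rw [h2]; unfold lbf; refine Prod.ext ?_ ?_ <;> simp only [Prod.fst_sub, Prod.snd_sub,
              Prod.fst_add, Prod.snd_add] <;> ring
        · refine ⟨(f.1, f.2 + 1), ?_, ?_⟩
          · unfold IsUnit4; simp [Prod.ext_iff]
          · rw [h2]; unfold lbf; refine Prod.ext ?_ ?_ <;> simp only [Prod.fst_sub, Prod.snd_sub,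
              Prod.fst_add, Prod.snd_add] <;> ring
      obtain ⟨g, hg, hgo⟩ := h1
      exact (hnf o ho f g hg hgo).2 hf
  have hO : O ⊆ X.E \ (Pool.Agent.Q1.M3.star Kv' ∪ starf Kf') := fun o ho =>
    hoff o (mem_union_left _ ho)
  have hC : C ⊆ X.E \ (Pool.Agent.Q1.M3.star Kv' ∪ starf Kf') := fun o ho =>
    hoff o (mem_union_right _ ho)
  -- covers
  have hk2 : 4 ^ k0 * r ≤ 2 * ρ1 := by omega
  have hN2 : 2 * N + 4 ≤ (128 * A + 64) * ρ1 := by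
    have h1 : ρ ≤ 64 * ρ1 := by omega
    nlinarith
  obtain ⟨s, p, ρs, ks, hc1, hc2, hc3⟩ := hTip.cover_kv (M := M) (R := ρ) (D1 := D1) (ρ1 := ρ1)
    (N := 2 * N + 4) (r := r) (r' := r) (A := 128 * A + 64) (k0 := k0) (C0 := C0) hδ0 hδ1 hC0.le hD1
    (by omega) (by omega) (by omega) (by omega) hk2 hN2 (by omega) (by omega)
  obtain ⟨s', p', ρs', ks', hc1', hc2', hc3'⟩ := hTip.cover_kf (M := M) (R := ρ) (D1 := D1)
    (ρ1 := ρ1) (N := 2 * N + 4) (r := r) (r' := r) (A := 128 * A + 64) (k0 := k0) (C0 := C0)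
    hδ0 hδ1 hC0.le hD1
    (by omega) (by omega) (by omega) (by omega) hk2 hN2 (by omega) (by omega)
  -- the environment box
  have hlabN := mem_Bx.1 (hCL.box hlabE)
  have hE2 : ∀ o ∈ O ∪ C, ∀ v, (v = eu o ∨ v = ev o) → 32 * D1 ≤ sd (vx (opc X.c0)) v ∧
      sd (vx (opc X.c0)) v ≤ 2 * N + 4 ∧
      ∃ l : ℤ × ℤ, (l.1 + l.2) % 2 = 1 ∧ l ∉ Reg u k ρ ∧ |l.1 - 2 * v.1| ≤ 2 * r ∧
        |l.2 - 2 * v.2| ≤ 2 * r := by
    intro o ho v hv
    have hoo := hodd o (hOCE o ho)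
    have hvo : |o.1 - 2 * v.1| ≤ 1 ∧ |o.2 - 2 * v.2| ≤ 1 := by
      rcases hv with rfl | rfl
      · unfold eu; simp only [abs_le]; omega
      · unfold ev; simp only [abs_le]; omega
    have h1 := hfarv o ho
    have h2 := mem_Bx.1 (hCL.box (hOCE o ho))
    refine ⟨?_, ?_, ?_⟩
    · unfold sd
      simp only [abs_eq_max_neg] at *
      omega
    · unfold sd
      simp only [abs_eq_max_neg] at *
      omega
    · obtain ⟨l, h3, h4, -, h5, h6⟩ := hnear o ho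
      refine ⟨l, h3, fun h => h4 (hPE h), ?_, ?_⟩
      · simp only [abs_le] at *
        omega
      · simp only [abs_le] at *
        omega
  have hE3 : ∀ o ∈ O ∪ C, ∀ g g', IsUnit4 (g' - g) → lbf g g' = o →
      32 * D1 ≤ sd (fi (opc X.c0)) g ∧ sd (fi (opc X.c0)) g ≤ 2 * N + 4 ∧
      ∃ l : ℤ × ℤ, (l.1 + l.2) % 2 = 1 ∧ l ∉ Reg u k ρ ∧ |l.1 + 1 - 2 * g.1| ≤ 2 * r ∧
        |l.2 + 1 - 2 * g.2| ≤ 2 * r := by
    intro o ho g g' hg hgo
    have hoo := hodd o (hOCE o ho)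
    have hvo : |o.1 + 1 - 2 * g.1| ≤ 1 ∧ |o.2 + 1 - 2 * g.2| ≤ 1 := by
      have h5 := unit_cases hg
      have h6 := congrArg Prod.fst hgo
      have h7 := congrArg Prod.snd hgo
      unfold lbf at h6 h7
      simp only [Prod.fst_sub, Prod.snd_sub, Prod.fst_add, Prod.snd_add] at h6 h7
      rw [abs_le, abs_le]
      omega
    have h1 := hfarf o ho
    have h2 := mem_Bx.1 (hCL.box (hOCE o ho))
    refine ⟨?_, ?_, ?_⟩
    · unfold sd
      simp only [abs_eq_max_neg] at *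
      omega
    · unfold sd
      simp only [abs_eq_max_neg] at *
      omega
    · obtain ⟨l, h3, h4, -, h5, h6⟩ := hnear o ho
      refine ⟨l, h3, fun h => h4 (hPE h), ?_, ?_⟩
      · simp only [abs_le] at *
        omega
      · simp only [abs_le] at *
        omega
  -- the box
  have hbv : Bx ((u j).1 - ρ') ((u j).1 + ρ') ((u j).2 - ρ') ((u j).2 + ρ') ⊆
      Pool.Agent.Q1.M3.star Kv' :=
    (box_kv (k := k) (i := i) (R := ρ) (ct := X.c0) hj.le (by omega)).trans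
      (Pool.Agent.Q1.M3.star_mono hT0.sub_fill)
  have hbf : Bx ((u j).1 - ρ') ((u j).1 + ρ') ((u j).2 - ρ') ((u j).2 + ρ') ⊆ starf Kf' := by
    refine (box_kf (k := k) (i := i) (R := ρ) (ct := X.c0) hj.le (by omega)).trans ?_
    intro l hl
    obtain ⟨f, hf, hf'⟩ := mem_starf.1 hl
    exact mem_starf.2 ⟨f, hF0.sub_fill hf, hf'⟩
  have hbxE : Bx ((u j).1 - ρ') ((u j).1 + ρ') ((u j).2 - ρ') ((u j).2 + ρ') ⊆ X.E :=
    hbv.trans hT0.filled.star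
  have hbxQ : Bx ((u j).1 - ρ') ((u j).1 + ρ') ((u j).2 - ρ') ((u j).2 + ρ') ⊆
      (X.flatten (O ∪ C) O).E := by
    rw [Env.flatten_E]
    intro l hl
    refine mem_sdiff.2 ⟨hbxE hl, fun h => ?_⟩
    exact (mem_sdiff.1 (hoff l h)).2 (mem_union_left _ (hbv hl))
  obtain ⟨Hv, Hf, hH⟩ := X.exists_prim hbxE
  obtain ⟨Gv, Gf, hG⟩ := (X.flatten (O ∪ C) O).exists_prim hbxQ
  have hstepj := hCL.chn.step j hj
  have hq0 : InQ (u j) ρ' (u j) := by
    unfold InQ Qt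
    simp
  have hq1 : InQ (u j) ρ' (u (j + 1)) := by
    unfold InQ Qt
    omega
  have hcmp := key M X W Kv' Kf' O C r s s' p p' ρs ρs' ks ks' _ _ _ _ hE.planeLike hT0.filled
    hF0.filled hO hC hRC.disj hr1 hbv hbf
    (fun o ho v hv => ⟨hRC.tieO o ho v hv, by
      obtain ⟨h1, h2, h3⟩ := hE2 o (mem_union_left _ ho) v hv
      exact hc1 v (hnv o (mem_union_left _ ho) v hv).1 h1 h2 h3⟩)
    hc2
    (fun o ho g g' hg hgo => ⟨hRC.tieC M hbE hbW o ho g g' hg hgo, by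
      obtain ⟨h1, h2, h3⟩ := hE3 o (mem_union_right _ ho) g g' hg hgo
      exact hc1' g (hnf o (mem_union_right _ ho) g g' hg hgo).1 h1 h2 h3⟩)
    hc2' Hv Hf Gv Gf hH hG (u (j + 1)) (u j) (inQ_inB hq1) (inQ_inB hq0) (mm ρ') (by
      intro ω1 hω1 Hv' Hf' hP
      rw [← Env.D_prim hP (inQ_inB hq0) (inQ_inB hq1)]
      refine le_mm (p := u j) ⟨_, hE.toPlaneEnv.freeze _ ω1⟩ ?_ hq0 hq1
      unfold Free
      rw [Env.freeze_E]
      exact subset_inter hbxE (Subset.refl _))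
  rw [Env.D_prim hH (inQ_inB hq0) (inQ_inB hq1), Env.D_prim hG (inQ_inB hq0) (inQ_inB hq1)]
  refine hcmp.trans ?_
  have hmm : 0 ≤ mm ρ' := Pool.Agent.Q1.M6c.mm_nonneg ρ'
  have h9 := add_le_add hc3 hc3'
  have h10 : 2 * mm ρ' * (∑ i ∈ s, C0 * (1 - δ) ^ ks i + ∑ i ∈ s', C0 * (1 - δ) ^ ks' i) ≤
      2 * mm ρ' * (C0 * (40000 / δ + (2 * ((128 * A + 64 : ℤ) : ℝ) + 1) ^ 2) * (1 - δ) ^ k0 +
        C0 * (40000 / δ + (2 * ((128 * A + 64 : ℤ) : ℝ) + 1) ^ 2) * (1 - δ) ^ k0) :=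
    mul_le_mul_of_nonneg_left h9 (by linarith)
  refine h10.trans (le_of_eq ?_)
  ring

end Pool.Agent.H23.Q1
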